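import Pool.Agent.helper97.IRO.Spec

set_option autoImplicit false

namespace Pool.Agent.IRO

theorem CT1 : CT1_stmt := by
  intro G _ P hP hC f g hf hg
  rcases hP.tri' (g⁻¹ * f * g ^ 2) with h | h | h
  · exact h
  · exfalso
    have h1 : f = g⁻¹ := by
      have h2 : f = g * (g⁻¹ * f * g ^ 2) * (g ^ 2)⁻¹ := by group
      rw [h] at h2
      rw [h2]; group
    rw [h1] at hf
    exact hP.anti g hg hf
  · exfalso
    have hk : P (f * g) := hP.mul f g hf hg
    have h1 : P (g⁻¹ * (f * g)⁻¹ * g) := by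
      have : (g⁻¹ * f * g ^ 2)⁻¹ = g⁻¹ * (f * g)⁻¹ * g := by group
      rwa [this] at h
    obtain ⟨n, hn⟩ := hC f (f * g) hf hk
    have h2 : (f * g)⁻¹ * f * (f * g) ^ n = g⁻¹ * (f * g) ^ n := by group
    rw [h2] at hn
    rcases Nat.eq_zero_or_pos n with h0 | h0
    · rw [h0, pow_zero, mul_one] at hn
      exact hP.anti g hg hn
    · have h3 : P (g * (g⁻¹ * (f * g)⁻¹ * g) ^ n) := hP.mul _ _ hg (hP.pow h1 h0)
      have h4 : ∀ (k : G) (m : ℕ), (g⁻¹ * k⁻¹ * g) ^ m = g⁻¹ * (k ^ m)⁻¹ * g := by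
        intro k m
        induction m with
        | zero => simp
        | succ m ih =>
          rw [pow_succ, ih, pow_succ' k, mul_inv_rev]
          simp only [mul_assoc, mul_inv_cancel_left]
      rw [h4] at h3
      refine hP.anti _ hn ?_
      have h5 : (g⁻¹ * (f * g) ^ n)⁻¹ = g * (g⁻¹ * ((f * g) ^ n)⁻¹ * g) := by group
      rw [h5]
      exact h3

end Pool.Agent.IRO
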