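import Pool.Agent.helper97.IRO.Spec

set_option autoImplicit false

open MeasureTheory Pool.Agent.LOF

namespace Pool.Agent.IRO

/-! ### test elements -/

lemma X0_mem : X0 ∈ F := by
  refine ⟨?_, _, ?_, X0_pl⟩
  · intro x hx
    rw [Set.mem_Ioo, not_and_or, not_lt, not_lt] at hx
    rw [X0_apply]
    rcases hx with hx | hx
    · rw [if_pos hx]
    · split_ifs <;> linarith
  · intro b hb
    simp only [Finset.mem_insert, Finset.mem_singleton] at hb
    rcases hb with rfl | rfl | rfl | rfl
    · simpa using IsDyadic.int 0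
    · exact ⟨1, 1, by norm_num⟩
    · exact ⟨3, 2, by norm_num⟩
    · simpa using IsDyadic.int 1

lemma X0_lt {t : ℝ} (h0 : 0 < t) (h1 : t < 1) : X0 t < t := by
  rw [X0_apply]
  split_ifs <;> linarith

/-- an element of `F` with a given top, moving up -/
lemma exists_up (y : DD) : ∃ g : F, IsTop g.1 y.1 ∧ Up g.1 y.1 := by
  obtain ⟨g, hg, h1, h2⟩ := exists_down y
  refine ⟨⟨g, hg⟩⁻¹, h1.inv, ?_⟩
  exact h2.inv (h1.1 _ le_rfl)

/-- an element of the commutator subgroup with a given top in `(0,1)`, moving up -/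
lemma exists_up_comm (y : D) : ∃ g : F, g ∈ commutator F ∧ IsTop g.1 y.1 ∧ Up g.1 y.1 := by
  obtain ⟨v, h1, h2⟩ := exists_up ⟨y.1, y.2.1, y.2.2.1, y.2.2.2.le⟩
  let w : F := ⟨X0, X0_mem⟩
  have hw : w.1 y.1 < y.1 := X0_lt y.2.2.1 y.2.2.2
  have hv1 : IsTop v.1 y.1 := h1
  have h3 : IsTop (w.1 * v.1⁻¹ * w.1⁻¹) (w.1 y.1) := hv1.inv.conj
  have key : ∀ z, w.1 y.1 ≤ z → (v * w * v⁻¹ * w⁻¹ : F).1 z = v.1 z := by
    intro z hz
    have e : (v * w * v⁻¹ * w⁻¹ : F).1 z = v.1 ((w.1 * v.1⁻¹ * w.1⁻¹) z) := rfl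
    rw [e, h3.1 z hz]
  have hup : Up (v * w * v⁻¹ * w⁻¹ : F).1 y.1 := by
    obtain ⟨e, he, hz⟩ := h2
    refine ⟨max e (w.1 y.1), max_lt he hw, fun z h4 h5 => ?_⟩
    rw [key z ((le_max_right _ _).trans h4.le)]
    exact hz z (lt_of_le_of_lt (le_max_left _ _) h4) h5
  refine ⟨v * w * v⁻¹ * w⁻¹, ?_, ⟨fun z hz => ?_, Or.inl hup⟩, hup⟩
  · rw [commutator_def]
    exact Subgroup.commutator_mem_commutator (Subgroup.mem_top v) (Subgroup.mem_top w)
  · rw [key z (hw.le.trans hz)]
    exact hv1.1 z hz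

/-- the test element at `y` -/
noncomputable def tu (y : D) : F := (exists_up_comm y).choose

lemma tu_comm (y : D) : tu y ∈ commutator F := (exists_up_comm y).choose_spec.1
lemma tu_top (y : D) : IsTop (tu y).1 y.1 := (exists_up_comm y).choose_spec.2.1
lemma tu_up (y : D) : Up (tu y).1 y.1 := (exists_up_comm y).choose_spec.2.2

/-- the point `1` -/
def oneD : DD := ⟨1, by simpa using IsDyadic.int 1, by norm_num, le_rfl⟩

/-- the test element at `1` -/
noncomputable def tu1 : F := (exists_up oneD).choose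

lemma tu1_top : IsTop tu1.1 1 := (exists_up oneD).choose_spec.1
lemma tu1_up : Up tu1.1 1 := (exists_up oneD).choose_spec.2

lemma pos_up {ε : DD → Bool} {g : ℝ ≃o ℝ} {y : DD} (h : IsTop g y.1) (hu : Up g y.1) :
    Pos ε g ↔ ε y = true := by
  rw [pos_iff h]
  constructor
  · rintro (h1 | h1)
    · exact h1.2
    · exact absurd h1.1 (fun h2 => not_up_down hu h2)
  · intro h1
    exact Or.inl ⟨hu, h1⟩

lemma ext_D (s : Bool) (ε : D → Bool) (y : D) :
    ext s ε ⟨y.1, y.2.1, y.2.2.1, y.2.2.2.le⟩ = ε y := by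
  unfold ext
  rw [dif_pos y.2.2.2]
  rfl

lemma ext_one (s : Bool) (ε : D → Bool) : ext s ε oneD = s := by
  unfold ext
  rw [dif_neg]
  exact lt_irrefl _

lemma PosQ_tu (q : Q) (ε : D → Bool) (y : D) : PosQ q ε (tu y) ↔ ε y = true := by
  have h : ∀ s, Pos (ext s ε) (tu y).1 ↔ ε y = true := by
    intro s
    rw [pos_up (y := ⟨y.1, y.2.1, y.2.2.1, y.2.2.2.le⟩) (tu_top y) (tu_up y), ext_D]
  rcases q with s | o
  · exact h s
  · have h1 : Abelianization.of (tu y) = 1 := by
      rw [← MonoidHom.mem_ker, Abelianization.ker_of]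
      exact tu_comm y
    have h2 : ¬ (o.1 (1, Abelianization.of (tu y)) = true) := by
      rw [h1, o.2.1 1]; exact Bool.false_ne_true
    constructor
    · rintro (h3 | h3)
      · exact absurd h3 h2
      · exact (h true).1 h3.2
    · intro h3
      exact Or.inr ⟨h1, (h true).2 h3⟩

lemma PosQ_tu1 (s : Bool) (ε : D → Bool) : PosQ (Sum.inl s) ε tu1 ↔ s = true := by
  show Pos (ext s ε) tu1.1 ↔ _
  rw [pos_up (y := oneD) tu1_top tu1_up, ext_one]

/-! ### the quotient order -/

/-- `F'` is convex -/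
def Cvx (r : LO F) : Prop :=
  ∀ g h : F, g ∉ commutator F → h ∈ commutator F → (Pr r (g * h) ↔ Pr r g)

/-- the cone of the quotient order -/
def qP (r : LO F) (x : Abelianization F) : Prop := x ≠ 1 ∧ Pr r (Quotient.out x)

lemma of_out (x : Abelianization F) : Abelianization.of (Quotient.out x) = x :=
  Quotient.out_eq x

lemma of_eq_one (g : F) : Abelianization.of g = 1 ↔ g ∈ commutator F := by
  rw [← MonoidHom.mem_ker, Abelianization.ker_of]

lemma Cvx.of_eq {r : LO F} (hr : Cvx r) {g h : F} (hg : g ∉ commutator F)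
    (he : Abelianization.of g = Abelianization.of h) : Pr r g ↔ Pr r h := by
  have h1 : g⁻¹ * h ∈ commutator F := by
    rw [← of_eq_one, map_mul, map_inv, he, inv_mul_cancel]
  have := hr g (g⁻¹ * h) hg h1
  rw [mul_inv_cancel_left] at this
  exact this.symm

lemma out_notin {x : Abelianization F} (hx : x ≠ 1) : (Quotient.out x : F) ∉ commutator F := by
  rw [← of_eq_one, of_out]; exact hx

lemma cone_qP {r : LO F} (hr : Cvx r) : Cone (qP r) := by
  have c := cone_LO r
  refine ⟨?_, ?_, ?_⟩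
  · rintro x y ⟨hx, hx'⟩ ⟨hy, hy'⟩
    have h1 := c.mul _ _ hx' hy'
    have h2 : Abelianization.of ((Quotient.out x : F) * Quotient.out y) = x * y := by
      rw [map_mul, of_out, of_out]
    have hxy : x * y ≠ 1 := by
      intro h3
      rw [h3, of_eq_one] at h2
      have h4 : (Quotient.out x : F)⁻¹ ∉ commutator F := by
        rw [inv_mem_iff]; exact out_notin hx
      have h5 := hr _ _ h4 h2
      rw [inv_mul_cancel_left] at h5
      exact c.anti _ hx' (h5.1 hy')
    refine ⟨hxy, ?_⟩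
    have h3 : (Quotient.out x : F) * Quotient.out y ∉ commutator F := by
      rw [← of_eq_one, h2]; exact hxy
    exact (hr.of_eq h3 (by rw [h2, of_out])).1 h1
  · intro x hx
    have h4 : (Quotient.out x : F)⁻¹ ∉ commutator F := by
      rw [inv_mem_iff]; exact out_notin hx
    have hne : (Quotient.out x : F) ≠ 1 := by
      intro h
      apply out_notin hx
      rw [h]; exact one_mem _
    rcases c.tri _ hne with h | h
    · exact Or.inl ⟨hx, h⟩
    · refine Or.inr ⟨inv_ne_one.2 hx, ?_⟩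
      exact (hr.of_eq h4 (by rw [map_inv, of_out, of_out])).1 h
  · rintro x ⟨hx, hx'⟩ ⟨_, hy⟩
    have h4 : (Quotient.out x : F)⁻¹ ∉ commutator F := by
      rw [inv_mem_iff]; exact out_notin hx
    have e : Abelianization.of ((Quotient.out x : F)⁻¹) =
        Abelianization.of (Quotient.out (x⁻¹ : Abelianization F) : F) := by
      rw [map_inv, of_out, of_out]
    exact c.anti _ hx' ((hr.of_eq h4 e).2 hy)

/-! ### the inverse map -/

open Classical in
/-- the parameter of an order -/
noncomputable def qOf (r : LO F) : Q :=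
  if h : r ∈ {r : LO F | Cvx r} then Sum.inr (ofCone (qP r) (cone_qP h))
    else Sum.inl (r.1 (1, tu1))

/-- the inverse map -/
noncomputable def PsiF (r : LO F) : Q × (D → Bool) := (qOf r, fun y => r.1 (1, tu y))

lemma Pr_meas (g : F) : MeasurableSet {r : LO F | Pr r g} := by
  have h : Measurable (fun r : LO F => r.1 (1, g)) :=
    (measurable_pi_apply (1, g)).comp measurable_subtype_coe
  have e : {r : LO F | Pr r g} = (fun r : LO F => r.1 (1, g)) ⁻¹' {true} := by
    ext r; rfl
  rw [e]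
  exact h (MeasurableSet.singleton true)

lemma Cvx_meas : MeasurableSet {r : LO F | Cvx r} := by
  have : {r : LO F | Cvx r} = ⋂ g : F, ⋂ h : F, {r : LO F | g ∉ commutator F →
      h ∈ commutator F → (Pr r (g * h) ↔ Pr r g)} := by
    ext r; simp [Cvx]
  rw [this]
  refine MeasurableSet.iInter fun g => MeasurableSet.iInter fun h => ?_
  by_cases h1 : g ∉ commutator F → h ∈ commutator F → False
  · have : {r : LO F | g ∉ commutator F → h ∈ commutator F → (Pr r (g * h) ↔ Pr r g)} =
        Set.univ := by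
      ext r
      simp only [Set.mem_univ, iff_true]
      intro h2 h3
      exact absurd h3 (h1 h2)
    rw [this]; exact MeasurableSet.univ
  · have : {r : LO F | g ∉ commutator F → h ∈ commutator F → (Pr r (g * h) ↔ Pr r g)} =
        {r : LO F | Pr r (g * h) ↔ Pr r g} := by
      ext r
      constructor
      · intro h2
        by_contra h3
        exact h1 fun h4 h5 => h3 (h2 h4 h5)
      · intro h2 _ _
        exact h2
    rw [this]
    have e : {r : LO F | Pr r (g * h) ↔ Pr r g} =
        ({r : LO F | Pr r (g * h)} ∩ {r : LO F | Pr r g}) ∪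
          ({r : LO F | Pr r (g * h)}ᶜ ∩ {r : LO F | Pr r g}ᶜ) := by
      ext r
      constructor
      · intro h2
        by_cases h3 : Pr r g
        · exact Or.inl ⟨h2.2 h3, h3⟩
        · exact Or.inr ⟨fun h4 => h3 (h2.1 h4), h3⟩
      · rintro (⟨h2, h3⟩ | ⟨h2, h3⟩)
        · exact ⟨fun _ => h3, fun _ => h2⟩
        · exact ⟨fun h4 => absurd h4 h2, fun h4 => absurd h4 h3⟩
    rw [e]
    exact ((Pr_meas _).inter (Pr_meas _)).union ((Pr_meas _).compl.inter (Pr_meas _).compl)

lemma qOf_meas : Measurable qOf := by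
  classical
  unfold qOf
  refine Measurable.dite (s := {r : LO F | Cvx r})
    (f := fun r => Sum.inr (ofCone (qP r.1) (cone_qP r.2)))
    (g := fun r => Sum.inl (r.1.1 (1, tu1))) ?_ ?_ Cvx_meas
  · refine measurable_inr.comp ?_
    refine Measurable.subtype_mk ?_
    rw [measurable_pi_iff]
    rintro ⟨x, y⟩
    have e : (fun r : {r : LO F | Cvx r} => (ofCone (qP r.1) (cone_qP r.2)).1 (x, y)) =
        (fun b : Bool => decide (x⁻¹ * y ≠ 1) && b) ∘
          fun r : {r : LO F | Cvx r} => r.1.1 (1, (Quotient.out (x⁻¹ * y) : F)) := by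
      funext r
      rw [Bool.eq_iff_iff]
      show decide (qP r.1 (x⁻¹ * y)) = true ↔
        (decide (x⁻¹ * y ≠ 1) && r.1.1 (1, (Quotient.out (x⁻¹ * y) : F))) = true
      rw [decide_eq_true_eq, Bool.and_eq_true, decide_eq_true_eq]
      rfl
    have hm : Measurable
        (fun r : {r : LO F | Cvx r} => (ofCone (qP r.1) (cone_qP r.2)).1 (x, y)) := by
      rw [e]
      exact (measurable_of_countable _).comp ((measurable_pi_apply _).comp
        (measurable_subtype_coe.comp measurable_subtype_coe))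
    exact hm
  · refine measurable_inl.comp ?_
    exact (measurable_pi_apply _).comp (measurable_subtype_coe.comp measurable_subtype_coe)

lemma PsiF_meas : Measurable PsiF := by
  refine qOf_meas.prodMk ?_
  rw [measurable_pi_iff]
  intro y
  exact (measurable_pi_apply _).comp measurable_subtype_coe

/-! ### the kinds with a sign are not convex -/

/-- the elements with trivial germ at `0` -/
def NR (hG2 : G2_stmt) : Subgroup F where
  carrier := {g | gR g.1 0 0}
  one_mem' := ⟨1, one_pos, fun z _ _ => by simp⟩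
  mul_mem' := by
    intro g h hg hh
    have := (hG2 g.1 h.1 0 0 0).2.2.1 hg hh
    simpa using this
  inv_mem' := by
    intro g hg
    have := (hG2 g.1 g.1 0 0 0).2.2.2 hg
    simpa using this

lemma comm_le_NR (hG1 : G1_stmt) (hG2 : G2_stmt) : commutator F ≤ NR hG2 := by
  rw [commutator_def, Subgroup.commutator_le]
  intro g _ h _
  obtain ⟨k, hk, _⟩ := (hG1 g 0 (F.out g.2 (by simp))).2
  obtain ⟨l, hl, _⟩ := (hG1 h 0 (F.out h.2 (by simp))).2
  have h1 := (hG2 g.1 h.1 0 k l).2.2.1 hk hl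
  have h2 := (hG2 g.1 g.1 0 k k).2.2.2 hk
  have h3 := (hG2 h.1 h.1 0 l l).2.2.2 hl
  have h4 := (hG2 _ _ 0 _ _).2.2.1 h1 h2
  have h5 := (hG2 _ _ 0 _ _).2.2.1 h4 h3
  show gR _ 0 0
  have e : k + l + -k + -l = 0 := by ring
  rw [e] at h5
  exact h5

lemma not_Cvx (hG1 : G1_stmt) (hG2 : G2_stmt) (hG4 : G4_stmt) (s : Bool) (ε : D → Bool) :
    ¬ Cvx (Ord (Sum.inl s) ε) := by
  intro hc
  have hd : IsDyadic (3 / 4) := ⟨3, 2, by norm_num⟩
  let y : D := ⟨3 / 4, hd, by norm_num, by norm_num⟩
  obtain ⟨b', _, hb1, hb2, g, hg, hgR⟩ := (hG4 0 (1 / 2) le_rfl (by norm_num) (by norm_num)).2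
    (by simpa using IsDyadic.int 0)
  have hgn : g ∉ commutator F := by
    intro h
    have h1 : gR g.1 0 0 := comm_le_NR hG1 hG2 h
    have h2 := (hG1 g 0 (F.out g.2 (by simp))).2
    have := h2.unique hgR h1
    exact absurd this (by norm_num)
  have hgfix : ∀ z, b' ≤ z → g.1 z = z := fun z hz => hg z fun h => absurd h.2 (not_lt.2 hz)
  have key : ∀ h : F, IsTop h.1 y.1 → (Up h.1 y.1 → Up (g * h).1 y.1) ∧
      (Down h.1 y.1 → Down (g * h).1 y.1) ∧ ∀ z, y.1 ≤ z → (g * h).1 z = z := by
    intro h hh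
    have hy : b' < y.1 := by show b' < 3 / 4; linarith
    have hfix : h.1 y.1 = y.1 := hh.1 _ le_rfl
    have hlt : h.1.symm b' < y.1 := by
      have : h.1.symm b' < h.1.symm y.1 := h.1.symm.strictMono hy
      rwa [OrderIso.symm_apply_eq h.1 |>.2 hfix.symm] at this
    have hz : ∀ z, h.1.symm b' < z → (g * h).1 z = h.1 z := by
      intro z hz
      have h1 : b' < h.1 z := by
        have := h.1.strictMono hz
        rwa [OrderIso.apply_symm_apply] at this
      exact hgfix _ h1.le
    refine ⟨?_, ?_, ?_⟩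
    · rintro ⟨e, he, h2⟩
      refine ⟨max e (h.1.symm b'), max_lt he hlt, fun z h3 h4 => ?_⟩
      rw [hz z (lt_of_le_of_lt (le_max_right _ _) h3)]
      exact h2 z (lt_of_le_of_lt (le_max_left _ _) h3) h4
    · rintro ⟨e, he, h2⟩
      refine ⟨max e (h.1.symm b'), max_lt he hlt, fun z h3 h4 => ?_⟩
      rw [hz z (lt_of_le_of_lt (le_max_right _ _) h3)]
      exact h2 z (lt_of_le_of_lt (le_max_left _ _) h3) h4
    · intro z h3
      rw [hz z (lt_of_lt_of_le hlt h3)]
      exact hh.1 z h3
  -- compare with `tu y` and its inverse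
  have c := cone_LO (Ord (Sum.inl s) ε)
  have hP : ∀ h : F, IsTop h.1 y.1 → (Pr (Ord (Sum.inl s) ε) (g * h) ↔
      Pr (Ord (Sum.inl s) ε) h) := by
    intro h hh
    obtain ⟨k1, k2, k3⟩ := key h hh
    let y' : DD := ⟨y.1, y.2.1, y.2.2.1, y.2.2.2.le⟩
    unfold Ord
    rw [Pr_ofCone, Pr_ofCone]
    show Pos (ext s ε) (g * h).1 ↔ Pos (ext s ε) h.1
    have ht : IsTop (g * h).1 y'.1 := ⟨k3, hh.2.imp k1 k2⟩
    have hh' : IsTop h.1 y'.1 := hh
    rw [pos_iff ht, pos_iff hh']
    rcases hh.2 with hu | hdn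
    · have hu' := k1 hu
      constructor
      · rintro (h1 | h1)
        · exact Or.inl ⟨hu, h1.2⟩
        · exact absurd h1.1 (fun h2 => not_up_down hu' h2)
      · rintro (h1 | h1)
        · exact Or.inl ⟨hu', h1.2⟩
        · exact absurd h1.1 (fun h2 => not_up_down hu h2)
    · have hd' := k2 hdn
      constructor
      · rintro (h1 | h1)
        · exact absurd hd' (fun h2 => not_up_down h1.1 h2)
        · exact Or.inr ⟨hdn, h1.2⟩
      · rintro (h1 | h1)
        · exact absurd hdn (fun h2 => not_up_down h1.1 h2)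
        · exact Or.inr ⟨hd', h1.2⟩
  have t1 := hP _ (tu_top y)
  have t2 := hP _ (show IsTop ((tu y)⁻¹ : F).1 y.1 from (tu_top y).inv)
  have u1 := hc g (tu y) hgn (tu_comm y)
  have u2 := hc g (tu y)⁻¹ hgn (inv_mem (tu_comm y))
  have e1 : Pr (Ord (Sum.inl s) ε) (tu y) ↔ Pr (Ord (Sum.inl s) ε) (tu y)⁻¹ :=
    t1.symm.trans (u1.trans (u2.symm.trans t2))
  rcases c.tri' (tu y) with h | h | h
  · exact c.anti _ h (e1.1 h)
  · have := tu_up y
    rw [h] at this
    obtain ⟨e, he, hz⟩ := this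
    obtain ⟨z, hz1, hz2⟩ := exists_between he
    exact lt_irrefl z (hz z hz1 hz2)
  · exact c.anti _ (e1.2 h) h

/-! ### conclusion -/

theorem FN1 (hG1 : G1_stmt) (hG2 : G2_stmt) (hG4 : G4_stmt) : FN1_stmt := by
  classical
  refine ⟨PsiF, PsiF_meas, fun q ε => ?_⟩
  refine Prod.ext ?_ ?_
  · show qOf (Ord q ε) = q
    rcases q with s | o
    · have h := not_Cvx hG1 hG2 hG4 s ε
      unfold qOf
      rw [dif_neg (show ¬ Ord (Sum.inl s) ε ∈ {r : LO F | Cvx r} from h)]
      congr 1
      rw [Bool.eq_iff_iff]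
      have : (Ord (Sum.inl s) ε).1 (1, tu1) = true ↔ PosQ (Sum.inl s) ε tu1 := by
        exact Pr_ofCone _ _ _
      rw [this, PosQ_tu1]
    · have h : Cvx (Ord (Sum.inr o) ε) := by
        intro g h hg hh
        unfold Ord
        rw [Pr_ofCone, Pr_ofCone]
        have e1 : Abelianization.of h = 1 := (of_eq_one h).2 hh
        have e2 : Abelianization.of (g * h) = Abelianization.of g := by
          rw [map_mul, e1, mul_one]
        have e3 : Abelianization.of g ≠ 1 := fun h2 => hg ((of_eq_one g).1 h2)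
        constructor
        · rintro (h1 | h1)
          · left; rw [← e2]; exact h1
          · exact absurd (e2 ▸ h1.1) e3
        · rintro (h1 | h1)
          · left; rw [e2]; exact h1
          · exact absurd h1.1 e3
      unfold qOf
      rw [dif_pos (show Ord (Sum.inr o) ε ∈ {r : LO F | Cvx r} from h)]
      congr 1
      apply Pr_inj
      intro x
      rw [Pr_ofCone]
      constructor
      · rintro ⟨hx, h1⟩
        have h2 : PosQ (Sum.inr o) ε (Quotient.out x) := (Pr_ofCone _ _ _).1 h1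
        rcases h2 with h2 | h2
        · rw [of_out] at h2; exact h2
        · rw [of_out] at h2; exact absurd h2.1 hx
      · intro h1
        have hx : x ≠ 1 := by
          intro h2
          rw [h2] at h1
          exact (cone_LO o).ne h1
        refine ⟨hx, (Pr_ofCone _ _ _).2 (Or.inl ?_)⟩
        rw [of_out]; exact h1
  · funext y
    show (Ord q ε).1 (1, tu y) = ε y
    rw [Bool.eq_iff_iff]
    have : (Ord q ε).1 (1, tu y) = true ↔ PosQ q ε (tu y) := Pr_ofCone _ _ _
    rw [this, PosQ_tu]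

end Pool.Agent.IRO
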