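import Pool.Agent.helper97.IRO.FN9

set_option autoImplicit false

/-!
# The final statement
-/

open MeasureTheory Pool.Agent.LOF

namespace Pool.Agent.IRO

/-- the orders fixed by the conjugation action (the bi-orders) -/
def Bi : Set (LO F) := {r | ∀ g : F, conj g r = r}

lemma Bi_meas : MeasurableSet Bi := by
  have : Bi = ⋂ g : F, ⋂ z : F × F, {r : LO F | (conj g r).1 z = r.1 z} := by
    ext r
    simp only [Bi, Set.mem_iInter]
    constructor
    · intro h g z
      show (conj g r).1 z = r.1 z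
      rw [h g]
    · intro h g
      exact Subtype.ext (funext fun z => h g z)
  rw [this]
  refine MeasurableSet.iInter fun g => MeasurableSet.iInter fun z => ?_
  exact measurableSet_eq_fun
    ((measurable_pi_apply _).comp (measurable_subtype_coe.comp (conj_meas g)))
    ((measurable_pi_apply _).comp measurable_subtype_coe)

lemma Bi_conj (g : F) (r : LO F) : conj g r ∈ Bi ↔ r ∈ Bi := by
  constructor
  · intro h
    have h1 := h g⁻¹
    rw [conj_conj, inv_mul_cancel, conj_one] at h1
    rw [h1]; exact h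
  · intro h
    rw [h g]; exact h

/-- the consequence for hyperfiniteness, for sets of positive measure -/
theorem FN10 (h8 : FN8_stmt) (ν : Measure (LO F)) [IsProbabilityMeasure ν]
    (hν : ∀ g : F, ν.map (conj g) = ν) (Y : Set (LO F)) (hY : MeasurableSet Y)
    (hpos : ν (Y \ Bi) ≠ 0) (hyp : HyperfiniteOn Y (Elo F)) : Amenable F := by
  obtain ⟨Z, hZ, hYZ, hZg, hypZ⟩ := FN9 Y hY hyp
  set S : Set (LO F) := Z \ Bi with hS
  have hSm : MeasurableSet S := hZ.diff Bi_meas
  have hSg : ∀ g : F, (conj g) ⁻¹' S = S := by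
    intro g
    ext r
    simp only [hS, Set.mem_preimage, Set.mem_diff, hZg, Bi_conj]
  have hS0 : ν S ≠ 0 := by
    intro h
    exact hpos (measure_mono_null (Set.diff_subset_diff_left hYZ) h)
  have hSt : ν S ≠ ⊤ := measure_ne_top ν S
  let μ : Measure (LO F) := (ν S)⁻¹ • ν.restrict S
  have hμ : ∀ A, MeasurableSet A → μ A = (ν S)⁻¹ * ν (A ∩ S) := by
    intro A hA
    show ((ν S)⁻¹ • ν.restrict S) A = _
    rw [Measure.smul_apply, smul_eq_mul, Measure.restrict_apply hA]
  haveI : IsProbabilityMeasure μ := ⟨by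
    rw [hμ _ MeasurableSet.univ, Set.univ_inter, ENNReal.inv_mul_cancel hS0 hSt]⟩
  have hinv : Inv μ := by
    intro g
    ext A hA
    rw [Measure.map_apply (conj_meas g) hA, hμ _ (conj_meas g hA), hμ _ hA]
    congr 1
    have e : conj g ⁻¹' A ∩ S = conj g ⁻¹' (A ∩ S) := by
      rw [Set.preimage_inter, hSg g]
    rw [e, ← Measure.map_apply (conj_meas g) (hA.inter hSm), hν g]
  have hZ0 : μ Zᶜ = 0 := by
    rw [hμ _ hZ.compl]
    have : Zᶜ ∩ S = ∅ := by
      ext r
      simp only [hS, Set.mem_inter_iff, Set.mem_compl_iff, Set.mem_diff, Set.mem_empty_iff_false]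
      tauto
    rw [this, measure_empty, mul_zero]
  rcases h8 μ hinv Z hZ hZ0 hypZ with h | h
  · exfalso
    have h1 : μ Bi = 0 := by
      rw [hμ _ Bi_meas]
      have : Bi ∩ S = ∅ := by
        ext r
        simp only [hS, Set.mem_inter_iff, Set.mem_diff, Set.mem_empty_iff_false]
        tauto
      rw [this, measure_empty, mul_zero]
    have h2 : μ Bi = 1 := h
    rw [h1] at h2
    exact zero_ne_one h2
  · exact h

/-- the final statement -/
theorem final2 (h5 : FN5_stmt) (h6 : FN6_stmt) (h8 : FN8_stmt)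
    (ν : Measure (LO F)) [IsProbabilityMeasure ν] :
    ((∀ g : F, ν.map (conj g) = ν) ↔
      ∃ m : Measure (Bool × Q × unitInterval), IsProbabilityMeasure m ∧
        ∀ A, MeasurableSet A → ν A = ∫⁻ w, law w.1 w.2.1 w.2.2 A ∂m) ∧
    ((∀ g : F, ν.map (conj g) = ν) → ∀ Y : Set (LO F), MeasurableSet Y →
      ν (Y \ {r | ∀ g : F, conj g r = r}) ≠ 0 → HyperfiniteOn Y (Elo F) → Amenable F) :=
  ⟨(final h5 h6 h8 ν).1, fun h Y hY hpos hyp => FN10 h8 ν h Y hY hpos hyp⟩

end Pool.Agent.IRO
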