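import Pool.Agent.helper97.IRO.Spec2
import Pool.Agent.helper97.IRO.Fin2

set_option autoImplicit false

/-!
# The final statement with the uniqueness of the mixing measure
-/

open MeasureTheory Pool.Agent.LOF

namespace Pool.Agent.IRO

/-- the final statement -/
theorem final3 (h5 : FN5_stmt) (h6 : FN6_stmt) (h8 : FN8_stmt) (hU : UN4_stmt)
    (ν : Measure (LO F)) [IsProbabilityMeasure ν] :
    ((∀ g : F, ν.map (conj g) = ν) ↔
      ∃! m : Measure (Bool × Q × unitInterval), IsProbabilityMeasure m ∧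
        ∀ A, MeasurableSet A → ν A = ∫⁻ w, law w.1 w.2.1 w.2.2 A ∂m) ∧
    ((∀ g : F, ν.map (conj g) = ν) → ∀ Y : Set (LO F), MeasurableSet Y →
      ν (Y \ {r | ∀ g : F, conj g r = r}) ≠ 0 → HyperfiniteOn Y (Elo F) → Amenable F) := by
  refine ⟨⟨fun h => ?_, fun h => ?_⟩, (final2 h5 h6 h8 ν).2⟩
  · obtain ⟨m, hm1, hm2⟩ := (final2 h5 h6 h8 ν).1.1 h
    refine ⟨m, ⟨hm1, hm2⟩, ?_⟩
    rintro m' ⟨hm1', hm2'⟩
    exact hU m' m hm1' hm1 fun A hA => by rw [← hm2' A hA, hm2 A hA]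
  · obtain ⟨m, hm, _⟩ := h
    exact (final2 h5 h6 h8 ν).1.2 ⟨m, hm⟩

end Pool.Agent.IRO
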