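import Pool.Agent.helper97.IRO.Spec

set_option autoImplicit false

open Pool.Agent.LOF

namespace Pool.Agent.IRO

namespace MI

lemma mm (g : F) : mirF (mirF g) = g := Subtype.ext (mir_mir g.1)

lemma mem1 {g : F} {a b : ℝ} (h : g ∈ FI a b) : mirF g ∈ FI (1 - b) (1 - a) := by
  intro x hx
  show 1 - g.1 (1 - x) = x
  rw [h (1 - x), sub_sub_cancel]
  intro h1
  exact hx ⟨by linarith [h1.2], by linarith [h1.1]⟩

lemma mem2 {g : F} {a b : ℝ} : mirF g ∈ FI (1 - b) (1 - a) ↔ g ∈ FI a b := by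
  constructor
  · intro h
    have := mem1 h
    rw [mm, sub_sub_cancel, sub_sub_cancel] at this
    exact this
  · exact mem1

lemma cof1 (r : LO F) {g : F} {a b : ℝ} (h : Cof (Pr (pull r)) (FI a b) g) :
    Cof (Pr r) (FI (1 - b) (1 - a)) (mirF g) := by
  refine ⟨mem1 h.1, fun k hk => ?_⟩
  have hk' : mirF k ∈ FI a b := by
    rw [← mem2, mm]; exact hk
  obtain ⟨n, hn⟩ := h.2 _ hk'
  rw [Pr_pull, map_mul, map_inv, mm, map_zpow] at hn
  exact ⟨n, hn⟩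

lemma pullpull (r : LO F) : pull (pull r) = r := by
  apply Pr_inj
  intro g
  rw [Pr_pull, Pr_pull, mm]

lemma cof2 (r : LO F) {g : F} {a b : ℝ} (h : Cof (Pr r) (FI a b) g) :
    Cof (Pr (pull r)) (FI (1 - b) (1 - a)) (mirF g) := by
  rw [← pullpull r] at h
  exact cof1 (pull r) h

lemma at1 (r : LO F) {a b : ℝ} (h : Aty (Pr r) a b) : Bty (Pr (pull r)) (1 - b) (1 - a) := by
  obtain ⟨g, ⟨b', hb', hg⟩, hc⟩ := h
  exact ⟨mirF g, ⟨1 - b', by linarith, mem1 hg⟩, cof2 r hc⟩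

lemma bt1 (r : LO F) {a b : ℝ} (h : Bty (Pr r) a b) : Aty (Pr (pull r)) (1 - b) (1 - a) := by
  obtain ⟨g, ⟨a', ha', hg⟩, hc⟩ := h
  exact ⟨mirF g, ⟨1 - a', by linarith, mem1 hg⟩, cof2 r hc⟩

lemma conr1 (r : LO F) (h : Conr (Pr r)) : Conr (Pr (pull r)) := by
  intro f g hf hg
  rw [Pr_pull] at hf hg
  obtain ⟨n, hn⟩ := h _ _ hf hg
  refine ⟨n, ?_⟩
  rw [Pr_pull, map_mul, map_mul, map_inv, map_pow]
  exact hn

end MI

open MI in
theorem MI1 : MI1_stmt := by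
  intro r
  refine ⟨⟨fun h => ?_, conr1 r⟩, fun a b => ⟨⟨fun h => ?_, fun h => ?_⟩, ⟨fun h => ?_, fun h => ?_⟩⟩⟩
  · have := conr1 _ h
    rwa [pullpull] at this
  · have := at1 _ h
    rwa [pullpull] at this
  · have := bt1 _ h
    rwa [sub_sub_cancel, sub_sub_cancel] at this
  · have := bt1 _ h
    rwa [pullpull] at this
  · have := at1 _ h
    rwa [sub_sub_cancel, sub_sub_cancel] at this

end Pool.Agent.IRO
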