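import Pool.Agent.helper97.IRO.Spec2

set_option autoImplicit false

open MeasureTheory ProbabilityTheory Pool.Agent.LOF

namespace Pool.Agent.IRO

namespace UN2

lemma ind_meas : Measurable ind := measurable_of_countable _

lemma ind_bd (b : Bool) : 0 ≤ ind b ∧ ind b ≤ 1 := by
  cases b <;> simp [ind]

lemma X_meas (d : D) : Measurable fun ε : D → Bool => ind (ε d) :=
  ind_meas.comp (measurable_pi_apply d)

lemma X_mem (p : unitInterval) (d : D) : MemLp (fun ε : D → Bool => ind (ε d)) 2 (bernP p) := by
  refine MemLp.of_bound (X_meas d).aestronglyMeasurable 1 ?_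
  filter_upwards with ε
  rw [Real.norm_eq_abs, abs_of_nonneg (ind_bd _).1]
  exact (ind_bd _).2

lemma X_int (p : unitInterval) (d : D) : ∫ ε, ind (ε d) ∂(bernP p) = p.1 := by
  have h1 : (bernP p).map (fun ε : D → Bool => ε d) = coinP p := by
    unfold bernP
    exact Measure.infinitePi_map_eval (fun _ : D => coinP p) d
  have h2 : ∫ b, ind b ∂((bernP p).map (fun ε : D → Bool => ε d)) =
      ∫ ε, ind (ε d) ∂(bernP p) :=
    integral_map (measurable_pi_apply d).aemeasurable ind_meas.aestronglyMeasurable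
  rw [← h2, h1]
  unfold coinP
  have hi : ∀ (c : ENNReal) (b : Bool), c ≠ ⊤ → Integrable ind (c • Measure.dirac b) := by
    intro c b hc
    refine Integrable.smul_measure ?_ hc
    exact integrable_dirac (by simp)
  rw [integral_add_measure (hi _ _ ENNReal.ofReal_ne_top) (hi _ _ ENNReal.ofReal_ne_top),
    integral_smul_measure, integral_smul_measure, integral_dirac, integral_dirac]
  have hp : 0 ≤ p.1 := p.2.1
  simp [ind, ENNReal.toReal_ofReal hp]

lemma X_var (p : unitInterval) (d : D) : variance (fun ε : D → Bool => ind (ε d)) (bernP p) ≤ 1 := by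
  refine (variance_le_expectation_sq (X_meas d).aestronglyMeasurable).trans ?_
  have h : ∫ ε, ((fun ε : D → Bool => ind (ε d)) ^ 2) ε ∂(bernP p) ≤
      ∫ _, (1 : ℝ) ∂(bernP p) := by
    refine integral_mono_of_nonneg ?_ (integrable_const _) ?_
    · filter_upwards with ε
      exact sq_nonneg _
    · filter_upwards with ε
      show ind (ε d) ^ 2 ≤ 1
      have := ind_bd (ε d)
      nlinarith [this.1, this.2]
  refine h.trans ?_
  simp

end UN2

open UN2 in
theorem UN2 : UN2_stmt := by
  intro e he p N hN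
  have hN' : (0 : ℝ) < N := by exact_mod_cast hN
  let X : ℕ → (D → Bool) → ℝ := fun i ε => ind (ε (e i))
  have hind : ∀ i j, i ≠ j → IndepFun (X i) (X j) (bernP p) := by
    intro i j hij
    have h := iIndepFun_infinitePi (P := fun _ : D => coinP p) (X := fun (_ : D) b => ind b)
      (fun _ => ind_meas)
    exact h.indepFun (fun h' => hij (he h'))
  have hvar : variance (∑ i ∈ Finset.range N, X i) (bernP p) ≤ N := by
    rw [IndepFun.variance_sum (fun i _ => X_mem p (e i)) (fun i _ j _ hij => hind i j hij)]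
    calc ∑ i ∈ Finset.range N, variance (X i) (bernP p) ≤ ∑ i ∈ Finset.range N, (1 : ℝ) :=
          Finset.sum_le_sum fun i _ => X_var p (e i)
      _ = N := by simp
  have hmean : ∫ ε, (∑ i ∈ Finset.range N, X i) ε ∂(bernP p) = N * p.1 := by
    have : (fun ε => (∑ i ∈ Finset.range N, X i) ε) = fun ε => ∑ i ∈ Finset.range N, X i ε := by
      funext ε; simp
    rw [this, integral_finsetSum _ fun i _ => (X_mem p (e i)).integrable (by norm_num)]
    simp only [X, X_int]
    simp
  have hmeas : Measurable (∑ i ∈ Finset.range N, X i) := by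
    have h1 : Measurable fun ε : D → Bool => ∑ i ∈ Finset.range N, X i ε :=
      Finset.measurable_sum _ fun i _ => X_meas (e i)
    have h2 : (∑ i ∈ Finset.range N, X i) = fun ε => ∑ i ∈ Finset.range N, X i ε := by
      funext ε; simp
    rw [h2]; exact h1
  rw [variance_eq_integral hmeas.aemeasurable, hmean] at hvar
  have e1 : ∀ ε : D → Bool, ((∑ i ∈ Finset.range N, ind (ε (e i))) / N - p.1) ^ 2 =
      (1 / (N : ℝ) ^ 2) * ((∑ i ∈ Finset.range N, X i) ε - N * p.1) ^ 2 := by
    intro ε
    have : (∑ i ∈ Finset.range N, X i) ε = ∑ i ∈ Finset.range N, ind (ε (e i)) := by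
      simp [X]
    rw [this]
    field_simp
  simp only [e1]
  rw [integral_const_mul]
  have h3 : (1 / (N : ℝ) ^ 2) * ∫ ε, ((∑ i ∈ Finset.range N, X i) ε - N * p.1) ^ 2 ∂(bernP p) ≤
      (1 / (N : ℝ) ^ 2) * (N : ℝ) :=
    mul_le_mul_of_nonneg_left hvar (by positivity)
  have h4 : (1 / (N : ℝ) ^ 2) * (N : ℝ) = 1 / N := by field_simp
  rw [h4] at h3
  exact h3

end Pool.Agent.IRO
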