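import Pool.Agent.helper97.IRO.Spec2

set_option autoImplicit false

open MeasureTheory Pool.Agent.LOF Filter Topology

namespace Pool.Agent.IRO

namespace UN3

instance cntAb : Countable (Abelianization F) :=
  Function.Surjective.countable (f := (Abelianization.of : F →* Abelianization F))
    QuotientGroup.mk_surjective

instance singQ : MeasurableSingletonClass Q := by
  constructor
  rintro (a | b)
  · have : ({Sum.inl a} : Set Q) = Sum.inl '' {a} := by simp
    rw [this]
    exact (MeasurableSet.singleton a).inl_image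
  · have : ({Sum.inr b} : Set Q) = Sum.inr '' {b} := by simp
    rw [this]
    exact (MeasurableSet.singleton b).inr_image

lemma pull_meas : Measurable (pull : LO F → LO F) := by
  refine Measurable.subtype_mk ?_
  rw [measurable_pi_iff]
  intro z
  exact (measurable_pi_apply _).comp measurable_subtype_coe

lemma pull_pull (r : LO F) : pull (pull r) = r := by
  apply Pr_inj
  intro g
  rw [Pr_pull, Pr_pull]
  have : mirF (mirF g) = g := Subtype.ext (mir_mir g.1)
  rw [this]

/-- an injective sequence in `D` -/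
noncomputable def sq (i : ℕ) : D := ⟨1 / 2 ^ (i + 1), ⟨1, i + 1, by norm_num⟩, by positivity, by
  rw [div_lt_one (by positivity)]
  exact one_lt_pow₀ (by norm_num) (Nat.succ_ne_zero i)⟩

lemma sq_inj : Function.Injective sq := by
  intro i j h
  have h1 : (1 : ℝ) / 2 ^ (i + 1) = 1 / 2 ^ (j + 1) := congrArg Subtype.val h
  have h2 : (2 : ℝ) ^ (i + 1) = 2 ^ (j + 1) := by
    have hi : (2 : ℝ) ^ (i + 1) ≠ 0 := by positivity
    have hj : (2 : ℝ) ^ (j + 1) ≠ 0 := by positivity
    field_simp at h1
    exact h1.symm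
  have h3 := pow_right_injective₀ (by norm_num : (0 : ℝ) < 2) (by norm_num) h2
  omega

/-- the averages -/
noncomputable def av (N : ℕ) (ε : D → Bool) : ℝ := (∑ i ∈ Finset.range N, ind (ε (sq i))) / N

lemma av_meas (N : ℕ) : Measurable (av N) := by
  have h : Measurable fun ε : D → Bool => ∑ i ∈ Finset.range N, ind (ε (sq i)) :=
    Finset.measurable_sum _ fun i _ => (measurable_of_countable ind).comp (measurable_pi_apply _)
  exact h.div_const _

/-- the limit frequency -/
noncomputable def al (ε : D → Bool) : unitInterval :=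
  Set.projIcc 0 1 zero_le_one (limsup (fun k : ℕ => av (4 ^ k) ε) atTop)

lemma al_meas : Measurable al := by
  have h : Measurable fun ε : D → Bool => limsup (fun k : ℕ => av (4 ^ k) ε) atTop :=
    Measurable.limsup fun k => av_meas (4 ^ k)
  exact (continuous_projIcc.measurable).comp h

lemma al_ae (h2 : UN2_stmt) (p : unitInterval) : ∀ᵐ ε ∂(bernP p), al ε = p := by
  let f : ℕ → (D → Bool) → ENNReal := fun k ε => ENNReal.ofReal ((av (4 ^ k) ε - p.1) ^ 2)
  have hf : ∀ k, Measurable (f k) := fun k =>
    (((av_meas (4 ^ k)).sub_const _).pow_const 2).ennreal_ofReal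
  have hbd : ∀ (k : ℕ) ε, ‖(av (4 ^ k) ε - p.1) ^ 2‖ ≤ 1 := by
    intro k ε
    have h4 : (0 : ℝ) < ((4 ^ k : ℕ) : ℝ) := by positivity
    have h0 : 0 ≤ av (4 ^ k) ε := by
      unfold av
      refine div_nonneg (Finset.sum_nonneg fun i _ => ?_) h4.le
      unfold ind; split_ifs <;> norm_num
    have h1 : av (4 ^ k) ε ≤ 1 := by
      unfold av
      rw [div_le_one h4]
      calc ∑ i ∈ Finset.range (4 ^ k), ind (ε (sq i)) ≤ ∑ i ∈ Finset.range (4 ^ k), (1 : ℝ) := by
            refine Finset.sum_le_sum fun i _ => ?_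
            unfold ind; split_ifs <;> norm_num
        _ = ((4 ^ k : ℕ) : ℝ) := by simp
    have hp0 := p.2.1
    have hp1 := p.2.2
    rw [Real.norm_eq_abs, abs_of_nonneg (sq_nonneg _)]
    have h5 : |av (4 ^ k) ε - p.1| ≤ 1 := by rw [abs_le]; constructor <;> linarith
    rw [← sq_abs]
    exact pow_le_one₀ (abs_nonneg _) h5
  have hint : ∀ k, ∫⁻ ε, f k ε ∂(bernP p) ≤ ENNReal.ofReal (1 / 4 ^ k) := by
    intro k
    have hI : Integrable (fun ε => (av (4 ^ k) ε - p.1) ^ 2) (bernP p) :=
      Integrable.of_bound ((((av_meas (4 ^ k)).sub_const _).pow_const 2).aestronglyMeasurable) 1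
        (Filter.Eventually.of_forall (hbd k))
    show ∫⁻ ε, ENNReal.ofReal ((av (4 ^ k) ε - p.1) ^ 2) ∂(bernP p) ≤ _
    rw [← ofReal_integral_eq_lintegral_ofReal hI (Filter.Eventually.of_forall fun ε => sq_nonneg _)]
    refine ENNReal.ofReal_le_ofReal ?_
    have := h2 sq sq_inj p (4 ^ k) (by positivity)
    push_cast at this
    unfold av
    push_cast
    exact this
  have hsum : ∫⁻ ε, ∑' k, f k ε ∂(bernP p) ≠ ⊤ := by
    rw [lintegral_tsum fun k => (hf k).aemeasurable]
    refine ne_top_of_le_ne_top ?_ (ENNReal.tsum_le_tsum hint)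
    rw [← ENNReal.ofReal_tsum_of_nonneg (fun k => by positivity)]
    · exact ENNReal.ofReal_ne_top
    · have : Summable fun k : ℕ => ((1 : ℝ) / 4) ^ k :=
        summable_geometric_of_lt_one (by norm_num) (by norm_num)
      refine this.congr fun k => ?_
      rw [div_pow, one_pow]
  have hae := ae_lt_top (Measurable.ennreal_tsum hf) hsum
  filter_upwards [hae] with ε hε
  have h1 : Tendsto (fun k => f k ε) atTop (𝓝 0) := ENNReal.tendsto_atTop_zero_of_tsum_ne_top hε.ne
  have h3 : Tendsto (fun k : ℕ => (av (4 ^ k) ε - p.1) ^ 2) atTop (𝓝 0) := by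
    have := (ENNReal.tendsto_toReal (ENNReal.zero_ne_top)).comp h1
    refine this.congr fun k => ?_
    show (ENNReal.ofReal _).toReal = _
    rw [ENNReal.toReal_ofReal (sq_nonneg _)]
  have h4 : Tendsto (fun k : ℕ => av (4 ^ k) ε) atTop (𝓝 p.1) := by
    have h5 : Tendsto (fun k : ℕ => |av (4 ^ k) ε - p.1|) atTop (𝓝 0) := by
      have := h3.sqrt
      rw [Real.sqrt_zero] at this
      refine this.congr fun k => ?_
      rw [Real.sqrt_sq_eq_abs]
    have h6 := (tendsto_zero_iff_abs_tendsto_zero _).2 h5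
    have h7 := h6.add_const p.1
    rw [zero_add] at h7
    refine h7.congr fun k => ?_
    ring
  unfold al
  rw [h4.limsup_eq, Set.projIcc_val]

end UN3

open UN3 in
theorem UN3 (h1 : FN1_stmt) (h3 : FN3_stmt) (hU1 : UN1_stmt) (hU2 : UN2_stmt) : UN3_stmt := by
  classical
  obtain ⟨Ψ, hΨ, hΨ'⟩ := h1
  let S : Set (LO F) := {r | Ord (Ψ r).1 (Ψ r).2 = r}
  have hS : MeasurableSet S := by
    have hm : Measurable fun r => Ord (Ψ r).1 (Ψ r).2 := h3.comp hΨ
    have : S = ⋂ z : F × F, {r : LO F | (Ord (Ψ r).1 (Ψ r).2).1 z = r.1 z} := by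
      ext r
      simp only [S, Set.mem_iInter]
      constructor
      · intro h z
        show (Ord (Ψ r).1 (Ψ r).2).1 z = r.1 z
        rw [show Ord (Ψ r).1 (Ψ r).2 = r from h]
      · intro h
        exact Subtype.ext (funext h)
    rw [this]
    refine MeasurableSet.iInter fun z => ?_
    exact measurableSet_eq_fun
      ((measurable_pi_apply _).comp (measurable_subtype_coe.comp hm))
      ((measurable_pi_apply _).comp measurable_subtype_coe)
  let T : LO F → Q × unitInterval := fun r => ((Ψ r).1, al (Ψ r).2)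
  have hT : Measurable T := (measurable_fst.comp hΨ).prodMk (al_meas.comp (measurable_snd.comp hΨ))
  let Θ : LO F → Bool × Q × unitInterval := fun r => if r ∈ S then (true, T r)
    else (false, T (pull r))
  have hΘ : Measurable Θ := Measurable.ite hS (measurable_const.prodMk hT)
    (measurable_const.prodMk (hT.comp pull_meas))
  have hmem : ∀ q ε, Ord q ε ∈ S := by
    intro q ε
    show Ord (Ψ (Ord q ε)).1 (Ψ (Ord q ε)).2 = Ord q ε
    rw [hΨ']
  have hnmem : ∀ q ε, pull (Ord q ε) ∉ S := by
    intro q ε h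
    exact hU1 _ _ _ _ h
  have hOm : ∀ q, Measurable fun ε : D → Bool => Ord q ε := fun q =>
    h3.comp (measurable_const.prodMk measurable_id)
  refine ⟨Θ, hΘ, fun t q p => ?_⟩
  have hms : MeasurableSet {r : LO F | Θ r = (t, q, p)} := hΘ (MeasurableSet.singleton _)
  unfold law
  cases t
  · have hm : Measurable fun ε : D → Bool => pull (Ord q ε) := pull_meas.comp (hOm q)
    have e : (fun ε : D → Bool => if (false : Bool) = true then Ord q ε else pull (Ord q ε)) =
        fun ε => pull (Ord q ε) := by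
      funext ε; simp
    rw [e, ae_map_iff hm.aemeasurable hms]
    filter_upwards [al_ae hU2 p] with ε hε
    show (if pull (Ord q ε) ∈ S then (true, T (pull (Ord q ε)))
      else (false, T (pull (pull (Ord q ε))))) = (false, q, p)
    rw [if_neg (hnmem q ε), pull_pull]
    show (false, ((Ψ (Ord q ε)).1, al (Ψ (Ord q ε)).2)) = _
    rw [hΨ', hε]
  · have e : (fun ε : D → Bool => if (true : Bool) = true then Ord q ε else pull (Ord q ε)) =
        fun ε => Ord q ε := by
      funext ε; simp
    rw [e, ae_map_iff (hOm q).aemeasurable hms]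
    filter_upwards [al_ae hU2 p] with ε hε
    show (if Ord q ε ∈ S then (true, T (Ord q ε))
      else (false, T (pull (Ord q ε)))) = (true, q, p)
    rw [if_pos (hmem q ε)]
    show (true, ((Ψ (Ord q ε)).1, al (Ψ (Ord q ε)).2)) = _
    rw [hΨ', hε]

end Pool.Agent.IRO
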