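import Pool.Agent.helper10.IRO.G1
import Pool.Agent.helper10.IRO.GE1
import Pool.Agent.helper11.IRO.G4
import Pool.Agent.helper13.IRO.CT9
import Pool.Agent.helper17.IRO.AL
import Pool.Agent.helper17.IRO.CT5
import Pool.Agent.helper17.IRO.DF4
import Pool.Agent.helper23.IRO.FN3
import Pool.Agent.helper23.IRO.FN6
import Pool.Agent.helper23.IRO.G7
import Pool.Agent.helper29.IRO.FN4
import Pool.Agent.helper29.IRO.GE6
import Pool.Agent.helper3.IRO.ME3
import Pool.Agent.helper3.IRO.T7a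
import Pool.Agent.helper31.IRO.DF3
import Pool.Agent.helper34.IRO.UN4
import Pool.Agent.helper35.IRO.FN7
import Pool.Agent.helper38.IRO.DF1
import Pool.Agent.helper38.IRO.T8
import Pool.Agent.helper39.IRO.CT3
import Pool.Agent.helper40.IRO.FR
import Pool.Agent.helper40.IRO.GE4
import Pool.Agent.helper40.IRO.ME2
import Pool.Agent.helper43.IRO.FN2
import Pool.Agent.helper43.IRO.UN1
import Pool.Agent.helper44.IRO.EMB
import Pool.Agent.helper44.IRO.FN8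
import Pool.Agent.helper44.IRO.ME4
import Pool.Agent.helper44.IRO.T1
import Pool.Agent.helper44.IRO.T3
import Pool.Agent.helper44.IRO.T5
import Pool.Agent.helper44.IRO.T5s
import Pool.Agent.helper44.IRO.T6
import Pool.Agent.helper46.IRO.G3
import Pool.Agent.helper46.IRO.G8
import Pool.Agent.helper52.IRO.T7b
import Pool.Agent.helper53.IRO.CT7
import Pool.Agent.helper53.IRO.GE7
import Pool.Agent.helper57.IRO.GE5
import Pool.Agent.helper57.IRO.T4
import Pool.Agent.helper58.IRO.G5a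
import Pool.Agent.helper58.IRO.T2
import Pool.Agent.helper66.IRO.CT6
import Pool.Agent.helper66.IRO.HU
import Pool.Agent.helper67.IRO.CT2
import Pool.Agent.helper67.IRO.DF0
import Pool.Agent.helper67.IRO.G5
import Pool.Agent.helper72.IRO.CT4
import Pool.Agent.helper77.IRO.CT8
import Pool.Agent.helper77.IRO.GE3
import Pool.Agent.helper87.IRO.HOL
import Pool.Agent.helper88.IRO.FN5
import Pool.Agent.helper9.IRO.G9
import Pool.Agent.helper90.IRO.G2
import Pool.Agent.helper90.IRO.ME5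
import Pool.Agent.helper94.IRO.DF2
import Pool.Agent.helper94.IRO.GE2
import Pool.Agent.helper94.IRO.ME1
import Pool.Agent.helper97.IRO.CT1
import Pool.Agent.helper97.IRO.FN1
import Pool.Agent.helper97.IRO.MI1
import Pool.Agent.helper97.IRO.UN2
import Pool.Agent.helper97.IRO.UN3
import Pool.Agent.helper97.IRO.Fin3

set_option autoImplicit false

/-!
# Invariant random left orders of `F`: all rows together
-/

open MeasureTheory Pool.Agent.LOF

namespace Pool.Agent.IRO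

theorem all_rows : FN5_stmt ∧ FN6_stmt ∧ FN8_stmt ∧ UN4_stmt := by
  have hME2 : ME2_stmt := ME2
  have hME1 : ME1_stmt := ME1
  have hCT1 : CT1_stmt := CT1
  have hHU : HU_stmt := HU hCT1
  have hCT2 : CT2_stmt := CT2 hHU
  have hCT5 : CT5_stmt := CT5 hHU
  have hG1 : G1_stmt := G1
  have hG2 : G2_stmt := G2
  have hG3 : G3_stmt := G3
  have hG4 : G4_stmt := G4
  have hG5a : G5a_stmt := G5a
  have hEMB : EMB_stmt := EMB
  have hG5 : G5_stmt := G5 hG5a hEMB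
  have hGE1 : GE1_stmt := GE1
  have hGE2 : GE2_stmt := GE2
  have hGE3 : GE3_stmt := GE3 hGE1 hGE2
  have hGE4 : GE4_stmt := GE4
  have hGE5 : GE5_stmt := GE5_nat
  have hGE6 : GE6_stmt := GE6 hGE3 hGE4 hGE5
  have hGE7 : GE7_stmt := GE7 hGE6 hG1 hG2
  have hG8 : G8_stmt := G8 hG5 hEMB hGE7
  have hHOL : HOL_stmt := HOL
  have hAL : AL_stmt := AL hCT1
  have hCT3 : CT3_stmt := CT3 hAL hCT1
  have hCT4 : CT4_stmt := CT4 hAL
  have hCT6 : CT6_stmt := CT6 hHU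
  have hCT7 : CT7_stmt := CT7 hCT1 hHU hCT6
  have hCT8 : CT8_stmt := CT8 hHOL hCT3 hCT4 hCT5 hCT6 hCT7
  have hG7 : G7_stmt := G7
  have hG9 : G9_stmt := G9 hG5 hEMB hGE7 hG7
  have hT2 : T2_stmt := T2 hCT8 hG9
  have hT1 : T1_stmt := T1 hCT2 hCT5 hG1 hG2 hG3 hG4 hG8 hT2
  have hT3 : T3_stmt := T3 hCT5 hCT6 hG1 hG2 hG4 hT2
  have hT4 : T4_stmt := T4 hCT5 hCT6 hG1 hG2 hG4 hT2
  have hME3 : ME3_stmt := ME3 hT1 hT3 hT4 hME1 hME2 hG5
  have hME4 : ME4_stmt := ME4 hT3 hT4 hME1 hME2 hG5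
  have hMI1 : MI1_stmt := MI1
  have hME5 : ME5_stmt := ME5 hME1 hME3 hME4 hMI1
  have hCT9 : CT9_stmt := CT9
  have hT5 : T5_stmt := T5 hCT2 hCT5 hCT9 hG1 hG2 hG3 hG4 hG8
  have hT5s : T5s_stmt := T5s hT5 hCT7 hG2 hG3
  have hT7a : T7a_stmt := T7a hT3 hT5s hG1 hG4
  have hT6 : T6_stmt := T6 hCT2 hCT5 hCT6 hCT7 hT5 hG4 hG7 hG8
  have hT7b : T7b_stmt := T7b hT5 hT5s hT6 hT2 hCT7 hG1 hG2 hG3 hG4 hGE7
  have hT8 : T8_stmt := T8 hT7a hT7b
  have hDF0 : DF0_stmt := DF0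
  have hDF1 : DF1_stmt := DF1 hG5
  have hDF2 : DF2_stmt := DF2 hDF1
  have hDF3 : DF3_stmt := DF3 hDF1 hDF2
  have hDF4 : DF4_stmt := DF4 hDF0 hDF3
  have hFN1 : FN1_stmt := FN1 hG1 hG2 hG4
  have hFN2 : FN2_stmt := FN2
  have hFN3 : FN3_stmt := FN3
  have hFN4 : FN4_stmt := FN4 hDF4 hFN1 hFN2 hFN3
  have hFN5 : FN5_stmt := FN5 hME2 hME5 hT8 hFN4
  have hFN6 : FN6_stmt := FN6 hFN2 hFN3
  have hFR : FR_stmt := FR
  have hFN7 : FN7_stmt := FN7 hFR hFN1 hFN2 hFN3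
  have hFN8 : FN8_stmt := FN8 hFN5 hFN7
  have hUN1 : UN1_stmt := UN1 hG2 hG4 hGE7
  have hUN2 : UN2_stmt := UN2
  have hUN3 : UN3_stmt := UN3 hFN1 hFN3 hUN1 hUN2
  have hUN4 : UN4_stmt := UN4 hUN3 hFN3
  exact ⟨hFN5, hFN6, hFN8, hUN4⟩

end Pool.Agent.IRO
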