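import Pool.Agent.helper97.IRO.Spec

set_option autoImplicit false

namespace Pool.Agent.IRO

/-- if `P d` and `u` is in the hull of `d`, and `u` is cofinal in `H`, then `d ∈ H` is cofinal -/
lemma cof_of_hull (hHU : HU_stmt) {G : Type} [Group G] {P : G → Prop} (hP : Cone P)
    (hC : Conr P) {H : Subgroup G} {d u : G} (hd : P d) (hdH : d ∈ H) (hu : Cof P H u)
    {n m : ℕ} (h1 : P (u⁻¹ * d ^ n)) (h2 : P (u * d ^ m)) : Cof P H d := by
  obtain ⟨K, _, hK⟩ := hHU G P hP hC d hd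
  have huK : u ∈ K := (hK u).2 ⟨⟨n, h1⟩, ⟨m, h2⟩⟩
  refine ⟨hdH, fun k hk => ?_⟩
  obtain ⟨a, ha⟩ := hu.2 k hk
  obtain ⟨⟨b, hb⟩, _⟩ := (hK (u ^ a)).1 (K.zpow_mem huK a)
  refine ⟨b, ?_⟩
  have := hP.mul _ _ ha hb
  have e : k⁻¹ * u ^ a * ((u ^ a)⁻¹ * d ^ b) = k⁻¹ * d ^ b := by group
  rw [e] at this
  rw [zpow_natCast]
  exact this

theorem CT6 (hHU : HU_stmt) : CT6_stmt := by
  intro G _ P hP hC H c u hcH hc hu hPu
  rcases hP.tri' (c⁻¹ * u) with h | h | h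
  · exact h
  · exfalso
    have : c = u := inv_mul_eq_one.1 h
    rw [this] at hc
    exact hc hu
  · exfalso
    have e : (c⁻¹ * u)⁻¹ = u⁻¹ * c := by group
    rw [e] at h
    have hPc : P c := by
      have := hP.mul _ _ hPu h
      rwa [mul_inv_cancel_left] at this
    refine hc (cof_of_hull hHU hP hC hPc hcH hu (n := 1) (m := 1) ?_ ?_)
    · rwa [pow_one]
    · rw [pow_one]; exact hP.mul _ _ hPu hPc

end Pool.Agent.IRO
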