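import Pool.Agent.helper97.IRO.CT6

set_option autoImplicit false

namespace Pool.Agent.IRO

theorem CT7 (h1 : CT1_stmt) (hHU : HU_stmt) : CT7_stmt := by
  intro G _ P hP hC H c u hcH hc hu hPu
  constructor
  · rcases hP.tri' (u * c) with h | h | h
    · exact h
    · exfalso
      have : c = u⁻¹ := eq_inv_of_mul_eq_one_right h
      rw [this] at hc
      exact hc hu.inv
    · exfalso
      have e : (u * c)⁻¹ = c⁻¹ * u⁻¹ := by group
      rw [e] at h
      have hd : P c⁻¹ := by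
        have := hP.mul _ _ h hPu
        rwa [inv_mul_cancel_right] at this
      have h2 := h1 G P hP hC (c⁻¹ * u⁻¹) c⁻¹ h hd
      have e2 : (c⁻¹)⁻¹ * (c⁻¹ * u⁻¹) * c⁻¹ ^ 2 = u⁻¹ * c⁻¹ ^ 2 := by group
      rw [e2] at h2
      have h3 : Cof P H c⁻¹ := cof_of_hull hHU hP hC hd (H.inv_mem hcH) hu (n := 2) (m := 1) h2
        (by rw [pow_one]; exact hP.mul _ _ hPu hd)
      have h4 := h3.inv
      rw [inv_inv] at h4
      exact hc h4
  · have hc' : ¬ Cof P H c⁻¹ := fun h => hc (by have := h.inv; rwa [inv_inv] at this)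
    have := CT6 hHU G P hP hC H c⁻¹ u (H.inv_mem hcH) hc' hu hPu
    rwa [inv_inv] at this

end Pool.Agent.IRO
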