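import Pool.Agent.helper46.LOF.Final

set_option autoImplicit false

/-!
# Invariant random left orders of Thompson's group `F`: definitions

`F`, `LO F`, `conj`, `Elo F`, `HyperfiniteOn`, `Amenable`, `Pos` are those of
`Pool.Agent.helper46.LOF`.
-/

open MeasureTheory Pool.Agent.LOF

namespace Pool.Agent.IRO

/-! ### positive cones of abstract groups -/

/-- `P` is the positive cone of a left order of `G` (the order is `h < k ↔ P (h⁻¹ * k)`) -/
structure Cone {G : Type} [Group G] (P : G → Prop) : Prop where
  mul : ∀ g h, P g → P h → P (g * h)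
  tri : ∀ g, g ≠ 1 → P g ∨ P g⁻¹
  anti : ∀ g, P g → ¬ P g⁻¹

open Classical in
/-- the left order with the positive cone `P` -/
noncomputable def ofCone {G : Type} [Group G] (P : G → Prop) (hP : Cone P) : LO G :=
  ⟨fun p => decide (P (p.1⁻¹ * p.2)), by
    have h1 : ¬ P 1 := fun h => hP.anti 1 h (by rwa [inv_one])
    refine ⟨fun g => ?_, fun f g h h1 h2 => ?_, fun g h hgh => ?_, fun f g h h1 => ?_⟩
    · rw [decide_eq_false_iff_not]
      simp only [inv_mul_cancel]
      exact h1
    · rw [decide_eq_true_eq] at h1 h2 ⊢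
      have := hP.mul _ _ h1 h2
      have e : (f⁻¹ * g) * (g⁻¹ * h) = f⁻¹ * h := by group
      simp only at this ⊢
      rwa [e] at this
    · rw [decide_eq_true_eq, decide_eq_true_eq]
      have h2 := hP.tri (g⁻¹ * h) (fun h3 => hgh (inv_mul_eq_one.1 h3))
      rwa [mul_inv_rev, inv_inv] at h2
    · rw [decide_eq_true_eq] at h1 ⊢
      have : (f * g)⁻¹ * (f * h) = g⁻¹ * h := by group
      simp only
      rw [this]
      exact h1⟩

/-- the positive cone of a left order -/
def Pr {G : Type} [Group G] (r : LO G) (g : G) : Prop := r.1 (1, g) = true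

/-- the Conrad property: for `f, g > 1` there is `n` with `g < f * g ^ n` -/
def Conr {G : Type} [Group G] (P : G → Prop) : Prop :=
  ∀ f g, P f → P g → ∃ n : ℕ, P (g⁻¹ * f * g ^ n)

/-- `g ∈ H` is cofinal in `H`: every `h ∈ H` is less than some integer power of `g` -/
def Cof {G : Type} [Group G] (P : G → Prop) (H : Subgroup G) (g : G) : Prop :=
  g ∈ H ∧ ∀ h ∈ H, ∃ n : ℤ, P (h⁻¹ * g ^ n)

/-! ### the four kinds of random orders -/

/-- the dyadic rationals in `(0,1)` -/
def D : Type := {y : ℝ // IsDyadic y ∧ y ∈ Set.Ioo (0 : ℝ) 1}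

open Classical in
/-- the sign function on the dyadics in `(0,1]` with value `s` at `1` and `ε` on `(0,1)` -/
noncomputable def ext (s : Bool) (ε : D → Bool) : DD → Bool := fun y =>
  if h : y.1 < 1 then ε ⟨y.1, y.2.1, y.2.2.1, h⟩ else s

/-- the parameters of a kind: either a sign, or a left order of the abelianization of `F` -/
abbrev Q : Type := Bool ⊕ LO (Abelianization F)

/-- The positive cone with the parameter `q` and the signs `ε`. For a sign `s`: `g` is positive
iff near the supremum of its support it moves up or down as told by the sign there (the sign at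
`1` is `s`). For a left order `o` of `F/F'`: `g` is positive iff its class in `F/F'` is positive
for `o`, or `g` is in `F'` and positive as before. -/
def PosQ (q : Q) (ε : D → Bool) (g : F) : Prop :=
  match q with
  | Sum.inl s => Pos (ext s ε) g.1
  | Sum.inr o => o.1 (1, Abelianization.of g) = true ∨
      (Abelianization.of g = 1 ∧ Pos (ext true ε) g.1)

lemma cone_pos (ε : DD → Bool) : Cone (fun g : F => Pos ε g.1) where
  mul g h h1 h2 := pos_mul h1 h2
  tri g hg := pos_or g.2 (fun h => hg (Subtype.ext h))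
  anti g h1 h2 := by
    have := pos_mul h1 h2
    have e : g.1 * (g⁻¹ : F).1 = 1 := by
      rw [← Subgroup.coe_mul, mul_inv_cancel]; rfl
    rw [e] at this
    exact not_pos_one ε this

lemma cone_LO {G : Type} [Group G] (r : LO G) : Cone (Pr r) where
  mul g h h1 h2 := by
    have h3 := r.2.2.2.2 g 1 h h2
    rw [mul_one] at h3
    exact r.2.2.1 _ _ _ h1 h3
  tri g hg := by
    rcases r.2.2.2.1 1 g (Ne.symm hg) with h | h
    · exact Or.inl h
    · right
      have h3 := r.2.2.2.2 g⁻¹ g 1 h
      rwa [inv_mul_cancel, mul_one] at h3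
  anti g h1 h2 := by
    have h3 := r.2.2.2.2 g 1 g⁻¹ h2
    rw [mul_one, mul_inv_cancel] at h3
    have h4 := r.2.2.1 _ _ _ h1 h3
    rw [r.2.1 1] at h4
    exact Bool.false_ne_true h4

lemma Pr_iff {G : Type} [Group G] (r : LO G) (h k : G) : r.1 (h, k) = true ↔ Pr r (h⁻¹ * k) := by
  unfold Pr
  constructor
  · intro h1
    have := r.2.2.2.2 h⁻¹ h k h1
    rwa [inv_mul_cancel] at this
  · intro h1
    have := r.2.2.2.2 h 1 (h⁻¹ * k) h1
    rwa [mul_one, mul_inv_cancel_left] at this

lemma Pr_inj {G : Type} [Group G] {r s : LO G} (h : ∀ g, Pr r g ↔ Pr s g) : r = s := by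
  apply Subtype.ext
  funext p
  rw [Bool.eq_iff_iff]
  have h1 := Pr_iff r p.1 p.2
  have h2 := Pr_iff s p.1 p.2
  exact h1.trans ((h _).trans h2.symm)

lemma Pr_ofCone {G : Type} [Group G] (P : G → Prop) (hP : Cone P) (g : G) :
    Pr (ofCone P hP) g ↔ P g := by
  unfold Pr ofCone
  simp

lemma Pr_conj {G : Type} [Group G] (r : LO G) (g h : G) :
    Pr (conj g r) h ↔ Pr r (g⁻¹ * h * g) := by
  show r.1 (1 * g, h * g) = true ↔ _
  rw [Pr_iff, one_mul, mul_assoc]

lemma cone_PosQ (q : Q) (ε : D → Bool) : Cone (PosQ q ε) := by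
  rcases q with s | o
  · exact cone_pos _
  · have c1 := cone_pos (ext true ε)
    have c2 := cone_LO o
    refine ⟨fun g h h1 h2 => ?_, fun g hg => ?_, fun g h1 h2 => ?_⟩
    · rcases h1 with h1 | ⟨h1, h1'⟩ <;> rcases h2 with h2 | ⟨h2, h2'⟩
      · left
        rw [map_mul]; exact c2.mul _ _ h1 h2
      · left
        rw [map_mul, h2, mul_one]; exact h1
      · left
        rw [map_mul, h1, one_mul]; exact h2
      · right
        exact ⟨by rw [map_mul, h1, h2, one_mul], c1.mul _ _ h1' h2'⟩
    · by_cases hc : Abelianization.of g = 1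
      · rcases c1.tri g hg with h | h
        · exact Or.inl (Or.inr ⟨hc, h⟩)
        · exact Or.inr (Or.inr ⟨by rw [map_inv, hc, inv_one], h⟩)
      · rcases c2.tri _ hc with h | h
        · exact Or.inl (Or.inl h)
        · right; left
          rw [map_inv]; exact h
    · have c3 : ¬ Pr o 1 := fun h => c2.anti 1 h (by rwa [inv_one])
      rcases h1 with h1 | ⟨h1, h1'⟩ <;> rcases h2 with h2 | ⟨h2, h2'⟩
      · rw [map_inv] at h2
        exact c2.anti _ h1 h2
      · rw [map_inv, inv_eq_one] at h2
        rw [h2] at h1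
        exact c3 h1
      · rw [map_inv, h1, inv_one] at h2
        exact c3 h2
      · exact c1.anti _ h1' h2'

/-- the left order with the parameter `q` and the signs `ε` -/
noncomputable def Ord (q : Q) (ε : D → Bool) : LO F := ofCone (PosQ q ε) (cone_PosQ q ε)

/-! ### the mirror image -/

/-- `g` turned around: `x ↦ 1 - g (1 - x)` -/
def mir (g : ℝ ≃o ℝ) : ℝ ≃o ℝ where
  toFun x := 1 - g (1 - x)
  invFun x := 1 - g.symm (1 - x)
  left_inv x := by simp
  right_inv x := by simp
  map_rel_iff' := by
    intro a b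
    show 1 - g (1 - a) ≤ 1 - g (1 - b) ↔ a ≤ b
    rw [sub_le_sub_iff_left, g.le_iff_le, sub_le_sub_iff_left]

lemma mir_apply (g : ℝ ≃o ℝ) (x : ℝ) : mir g x = 1 - g (1 - x) := rfl

lemma mir_mul (g h : ℝ ≃o ℝ) : mir (g * h) = mir g * mir h := by
  ext x
  show 1 - g (h (1 - x)) = 1 - g (1 - (1 - h (1 - x)))
  rw [sub_sub_cancel]

lemma mir_mir (g : ℝ ≃o ℝ) : mir (mir g) = g := by
  ext x
  show 1 - (1 - g (1 - (1 - x))) = g x
  rw [sub_sub_cancel, sub_sub_cancel]

lemma mir_mem {g : ℝ ≃o ℝ} (hg : g ∈ F) : mir g ∈ F := by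
  classical
  obtain ⟨h0, B, hB, hPL⟩ := hg
  refine ⟨fun x hx => ?_, B.image (fun b => 1 - b), ?_, ?_⟩
  · rw [mir_apply, h0, sub_sub_cancel]
    intro h
    exact hx ⟨by linarith [h.2], by linarith [h.1]⟩
  · intro b hb
    rw [Finset.mem_image] at hb
    obtain ⟨a, ha, rfl⟩ := hb
    have := (IsDyadic.int 1).sub (hB a ha)
    simpa using this
  · intro x y hxy hb
    obtain ⟨k, c, hk⟩ := hPL (1 - y) (1 - x) (by linarith) (by
      intro b hb'
      rcases hb (1 - b) (Finset.mem_image_of_mem _ hb') with h | h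
      · right; linarith
      · left; linarith)
    refine ⟨k, 1 - c - 2 ^ k, fun z hz => ?_⟩
    rw [mir_apply, hk (1 - z) ⟨by linarith [hz.2], by linarith [hz.1]⟩]
    ring

/-- the automorphism of `F` induced by the reflection `x ↦ 1 - x` -/
def mirF : F ≃* F where
  toFun g := ⟨mir g.1, mir_mem g.2⟩
  invFun g := ⟨mir g.1, mir_mem g.2⟩
  left_inv g := Subtype.ext (mir_mir g.1)
  right_inv g := Subtype.ext (mir_mir g.1)
  map_mul' g h := Subtype.ext (mir_mul g.1 h.1)

/-- the graph of the pull back of a left order under the reflection -/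
def pullFun (r : LO F) (z : F × F) : Bool := r.1 (mirF z.1, mirF z.2)

lemma pullFun_mem (r : LO F) : pullFun r ∈ LO F :=
  ⟨fun g => r.2.1 _, fun f g h h1 h2 => r.2.2.1 _ _ _ h1 h2,
    fun g h hgh => r.2.2.2.1 _ _ (fun h' => hgh (mirF.injective h')),
    fun f g h h1 => by
      have := r.2.2.2.2 (mirF f) _ _ h1
      show r.1 (mirF (f * g), mirF (f * h)) = true
      rwa [map_mul, map_mul]⟩

/-- the pull back of a left order under the reflection -/
def pull (r : LO F) : LO F := ⟨pullFun r, pullFun_mem r⟩

lemma Pr_pull (r : LO F) (g : F) : Pr (pull r) g ↔ Pr r (mirF g) := by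
  show r.1 (mirF 1, mirF g) = true ↔ _
  rw [map_one]
  rfl

/-! ### the laws -/

/-- a coin with probability `p` of `true` -/
noncomputable def coinP (p : unitInterval) : Measure Bool :=
  ENNReal.ofReal p.1 • Measure.dirac true + ENNReal.ofReal (1 - p.1) • Measure.dirac false

instance coinP_prob (p : unitInterval) : IsProbabilityMeasure (coinP p) := by
  constructor
  simp only [coinP, Measure.add_apply, Measure.smul_apply, measure_univ, smul_eq_mul, mul_one]
  rw [← ENNReal.ofReal_add p.2.1 (by linarith [p.2.2])]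
  simp

/-- independent signs at all dyadics of `(0,1)`, each `true` with probability `p` -/
noncomputable def bernP (p : unitInterval) : Measure (D → Bool) :=
  Measure.infinitePi fun _ => coinP p

instance bernP_prob (p : unitInterval) : IsProbabilityMeasure (bernP p) := by
  unfold bernP; infer_instance

/-- the random order of side `t` (`true`: suprema of supports, `false`: the mirror image),
parameter `q` and sign probability `p` -/
noncomputable def law (t : Bool) (q : Q) (p : unitInterval) : Measure (LO F) :=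
  (bernP p).map fun ε => if t then Ord q ε else pull (Ord q ε)

end Pool.Agent.IRO
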