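import Pool.Agent.helper97.IRO.Fin

set_option autoImplicit false

/-!
# Hyperfiniteness passes to the saturation
-/

open MeasureTheory Pool.Agent.LOF

namespace Pool.Agent.IRO

lemma Elo_refl (r : LO F) : Elo F r r := ⟨1, by
  apply Pr_inj
  intro g
  rw [Pr_conj]
  simp⟩

lemma conj_conj (g h : F) (r : LO F) : conj g (conj h r) = conj (g * h) r := by
  apply Pr_inj
  intro k
  rw [Pr_conj, Pr_conj, Pr_conj]
  have : h⁻¹ * (g⁻¹ * k * g) * h = (g * h)⁻¹ * k * (g * h) := by group
  rw [this]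

lemma conj_one (r : LO F) : conj 1 r = r := by
  apply Pr_inj
  intro k
  rw [Pr_conj]
  simp

lemma Elo_symm {r s : LO F} (h : Elo F r s) : Elo F s r := by
  obtain ⟨g, rfl⟩ := h
  exact ⟨g⁻¹, by rw [conj_conj, inv_mul_cancel, conj_one]⟩

lemma Elo_trans {r s t : LO F} (h : Elo F r s) (h' : Elo F s t) : Elo F r t := by
  obtain ⟨g, rfl⟩ := h
  obtain ⟨g', rfl⟩ := h'
  exact ⟨g' * g, by rw [conj_conj]⟩

/-- hyperfiniteness passes from `Y` to a Borel invariant set containing it -/
theorem FN9 (Y : Set (LO F)) (hY : MeasurableSet Y) (hyp : HyperfiniteOn Y (Elo F)) :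
    ∃ Z : Set (LO F), MeasurableSet Z ∧ Y ⊆ Z ∧ (∀ (g : F) (r : LO F), conj g r ∈ Z ↔ r ∈ Z) ∧
      HyperfiniteOn Z (Elo F) := by
  classical
  obtain ⟨R, r1, r2, r3, r4, r5⟩ := hyp
  obtain ⟨f, hf⟩ := exists_surjective_nat F
  let Z : Set (LO F) := {r | ∃ n : ℕ, conj (f n) r ∈ Y}
  have hZm : MeasurableSet Z := by
    have : Z = ⋃ n : ℕ, (conj (f n)) ⁻¹' Y := by
      ext r; simp [Z]
    rw [this]
    exact MeasurableSet.iUnion fun n => conj_meas (f n) hY
  have hYZ : Y ⊆ Z := by
    intro r hr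
    obtain ⟨n, hn⟩ := hf 1
    exact ⟨n, by rw [hn, conj_one]; exact hr⟩
  have hZg : ∀ (g : F) (r : LO F), conj g r ∈ Z ↔ r ∈ Z := by
    intro g r
    constructor
    · rintro ⟨n, hn⟩
      obtain ⟨m, hm⟩ := hf (f n * g)
      exact ⟨m, by rw [hm, ← conj_conj]; exact hn⟩
    · rintro ⟨n, hn⟩
      obtain ⟨m, hm⟩ := hf (f n * g⁻¹)
      exact ⟨m, by rw [hm, conj_conj, inv_mul_cancel_right]; exact hn⟩
  refine ⟨Z, hZm, hYZ, hZg, ?_⟩
  -- `K i`: the points whose first index is `i`
  let K : ℕ → Set (LO F) := fun i => {r | conj (f i) r ∈ Y ∧ ∀ j < i, conj (f j) r ∉ Y}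
  have hK : ∀ i, MeasurableSet (K i) := by
    intro i
    have : K i = (conj (f i)) ⁻¹' Y ∩ ⋂ j ∈ Finset.range i, ((conj (f j)) ⁻¹' Y)ᶜ := by
      ext r
      simp [K]
    rw [this]
    exact (conj_meas (f i) hY).inter
      (Finset.measurableSet_biInter _ fun j _ => (conj_meas (f j) hY).compl)
  have hKu : ∀ r i j, r ∈ K i → r ∈ K j → i = j := by
    intro r i j hi hj
    rcases lt_trichotomy i j with h | h | h
    · exact absurd hi.1 (hj.2 i h)
    · exact h
    · exact absurd hj.1 (hi.2 j h)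
  have hKZ : ∀ r ∈ Z, ∃ i, r ∈ K i := by
    rintro r hr
    exact ⟨Nat.find hr, Nat.find_spec hr, fun j hj => Nat.find_min hr hj⟩
  have hKZ' : ∀ i, K i ⊆ Z := fun i r hr => ⟨i, hr.1⟩
  let R' : ℕ → LO F → LO F → Prop := fun n x y => x = y ∨
    ∃ i ≤ n, ∃ j ≤ n, x ∈ K i ∧ y ∈ K j ∧ R n (conj (f i) x) (conj (f j) y)
  refine ⟨R', ?_, ?_, ?_, ?_, ?_⟩
  · intro n
    have : {p : LO F × LO F | R' n p.1 p.2} = {p : LO F × LO F | p.1 = p.2} ∪
        ⋃ i ∈ Finset.range (n + 1), ⋃ j ∈ Finset.range (n + 1),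
          ((Prod.fst ⁻¹' K i ∩ Prod.snd ⁻¹' K j) ∩
            (fun p : LO F × LO F => (conj (f i) p.1, conj (f j) p.2)) ⁻¹'
              {q : LO F × LO F | R n q.1 q.2}) := by
      ext p
      simp only [R', Set.mem_setOf_eq, Set.mem_union, Set.mem_iUnion, Finset.mem_range,
        Set.mem_inter_iff, Set.mem_preimage, exists_prop, Nat.lt_succ_iff, and_assoc]
    rw [this]
    refine MeasurableSet.union ?_ ?_
    · have h1 : {p : LO F × LO F | p.1 = p.2} = ⋂ z : F × F,
          {p : LO F × LO F | p.1.1 z = p.2.1 z} := by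
        ext p
        simp only [Set.mem_iInter, Set.mem_setOf_eq]
        constructor
        · intro h z; rw [h]
        · intro h; exact Subtype.ext (funext h)
      rw [h1]
      refine MeasurableSet.iInter fun z => ?_
      exact measurableSet_eq_fun
        ((measurable_pi_apply _).comp (measurable_subtype_coe.comp measurable_fst))
        ((measurable_pi_apply _).comp (measurable_subtype_coe.comp measurable_snd))
    · refine Finset.measurableSet_biUnion _ fun i _ => Finset.measurableSet_biUnion _ fun j _ => ?_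
      refine ((measurable_fst (hK i)).inter (measurable_snd (hK j))).inter ?_
      exact (((conj_meas (f i)).comp measurable_fst).prodMk
        ((conj_meas (f j)).comp measurable_snd)) (r1 n)
  · intro n
    refine ⟨fun x => Or.inl rfl, ?_, ?_⟩
    · rintro x y (h | ⟨i, hi, j, hj, hx, hy, h⟩)
      · exact Or.inl h.symm
      · exact Or.inr ⟨j, hj, i, hi, hy, hx, (r2 n).symm h⟩
    · rintro x y z (h | ⟨i, hi, j, hj, hx, hy, h⟩) (h' | ⟨i', hi', j', hj', hx', hy', h'⟩)
      · exact Or.inl (h.trans h')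
      · subst h
        exact Or.inr ⟨i', hi', j', hj', hx', hy', h'⟩
      · subst h'
        exact Or.inr ⟨i, hi, j, hj, hx, hy, h⟩
      · have e := hKu y j i' hy hx'
        subst e
        exact Or.inr ⟨i, hi, j', hj', hx, hy', (r2 n).trans h h'⟩
  · intro n x
    by_cases hx : ∃ i, i ≤ n ∧ x ∈ K i
    · obtain ⟨i, hi, hxi⟩ := hx
      have hfin := r3 n (conj (f i) x)
      refine (((Finset.range (n + 1)).finite_toSet.biUnion
        (t := fun j : ℕ => (conj (f j)⁻¹) '' {y | R n (conj (f i) x) y})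
        (fun j _ => hfin.image _)).union (Set.finite_singleton x)).subset ?_
      rintro y (h | ⟨i', hi', j, hj, hx', hy, h⟩)
      · right; exact h.symm
      · left
        have e := hKu x i i' hxi hx'
        subst e
        simp only [Set.mem_iUnion]
        refine ⟨j, ?_, conj (f j) y, h, ?_⟩
        · simpa using Nat.lt_succ_of_le hj
        · rw [conj_conj, inv_mul_cancel, conj_one]
    · refine (Set.finite_singleton x).subset ?_
      rintro y (h | ⟨i', hi', j, hj, hx', hy, h⟩)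
      · exact h.symm
      · exact absurd ⟨i', hi', hx'⟩ hx
  · rintro n x y (h | ⟨i, hi, j, hj, hx, hy, h⟩)
    · exact Or.inl h
    · exact Or.inr ⟨i, hi.trans (Nat.le_succ n), j, hj.trans (Nat.le_succ n), hx, hy, r4 n _ _ h⟩
  · intro x hx y hy
    have mono : ∀ n m, n ≤ m → ∀ u v, R n u v → R m u v := by
      intro n m hnm u v
      induction hnm with
      | refl => exact id
      | step _ ih => exact fun h => r4 _ _ _ (ih h)
    constructor
    · intro hE
      obtain ⟨i, hi⟩ := hKZ x hx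
      obtain ⟨j, hj⟩ := hKZ y hy
      have hE' : Elo F (conj (f i) x) (conj (f j) y) :=
        Elo_trans (Elo_trans (Elo_symm ⟨f i, rfl⟩) hE) ⟨f j, rfl⟩
      obtain ⟨n, hn⟩ := (r5 _ hi.1 _ hj.1).1 hE'
      refine ⟨max n (max i j), Or.inr ⟨i, ?_, j, ?_, hi, hj, mono n _ (le_max_left _ _) _ _ hn⟩⟩
      · exact (le_max_left i j).trans (le_max_right _ _)
      · exact (le_max_right i j).trans (le_max_right _ _)
    · rintro ⟨n, h | ⟨i, hi, j, hj, hx', hy', h⟩⟩
      · rw [h]; exact Elo_refl y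
      · have := (r5 _ hx'.1 _ hy'.1).2 ⟨n, h⟩
        exact Elo_trans (Elo_trans ⟨f i, rfl⟩ this) (Elo_symm ⟨f j, rfl⟩)

end Pool.Agent.IRO
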