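import Pool.Agent.helper97.IRO.Spec

set_option autoImplicit false

/-!
# Invariant random left orders of `F`: the final statement from the rows FN5, FN6, FN8
-/

open MeasureTheory Pool.Agent.LOF

namespace Pool.Agent.IRO

lemma conj_meas (g : F) : Measurable (conj g : LO F → LO F) := by
  refine Measurable.subtype_mk ?_
  rw [measurable_pi_iff]
  intro p
  exact (measurable_pi_apply _).comp measurable_subtype_coe

/-- the final statement -/
theorem final (h5 : FN5_stmt) (h6 : FN6_stmt) (h8 : FN8_stmt)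
    (ν : Measure (LO F)) [IsProbabilityMeasure ν] :
    ((∀ g : F, ν.map (conj g) = ν) ↔
      ∃ m : Measure (Bool × Q × unitInterval), IsProbabilityMeasure m ∧
        ∀ A, MeasurableSet A → ν A = ∫⁻ w, law w.1 w.2.1 w.2.2 A ∂m) ∧
    ((∀ g : F, ν.map (conj g) = ν) → ν {r | ∀ g : F, conj g r = r} ≠ 1 →
      ∀ Y : Set (LO F), MeasurableSet Y → ν Yᶜ = 0 → HyperfiniteOn Y (Elo F) → Amenable F) := by
  refine ⟨⟨fun h => h5 ν h, ?_⟩, fun h hne Y hY hY0 hyp => (h8 ν h Y hY hY0 hyp).resolve_left hne⟩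
  rintro ⟨m, _, hm⟩ g
  ext A hA
  rw [Measure.map_apply (conj_meas g) hA, hm _ (conj_meas g hA), hm _ hA]
  refine lintegral_congr fun w => ?_
  rw [← Measure.map_apply (conj_meas g) hA, h6 w.1 w.2.1 w.2.2 g]

end Pool.Agent.IRO
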