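import Pool.Agent.helper97.IRO.All

set_option autoImplicit false

/-!
# The final statement in short form
-/

open MeasureTheory Pool.Agent.LOF

namespace Pool.Agent.IRO

/-- `ν` is the mixture of the random orders `law t q p` with respect to the probability
measure `m` on the parameters -/
def Mix (ν : Measure (LO F)) (m : Measure (Bool × Q × unitInterval)) : Prop :=
  IsProbabilityMeasure m ∧ ∀ A, MeasurableSet A → ν A = ∫⁻ w, law w.1 w.2.1 w.2.2 A ∂m

theorem final4 (ν : Measure (LO F)) [IsProbabilityMeasure ν] :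
    (Inv ν ↔ ∃ m, Mix ν m) ∧ (∀ m m', Mix ν m → Mix ν m' → m = m') ∧
    (Inv ν → ∀ Y, MeasurableSet Y → ν (Y \ Bi) ≠ 0 → HyperfiniteOn Y (Elo F) → Amenable F) := by
  obtain ⟨h5, h6, h8, hU⟩ := all_rows
  refine ⟨(final2 h5 h6 h8 ν).1, ?_, (final2 h5 h6 h8 ν).2⟩
  rintro m m' ⟨h1, h2⟩ ⟨h1', h2'⟩
  exact hU m m' h1 h1' fun A hA => by rw [← h2 A hA, h2' A hA]

end Pool.Agent.IRO
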