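import Pool.Agent.helper97.IRO.Defs

set_option autoImplicit false

/-!
# Invariant random left orders of `F`: working definitions and trivial facts
-/

open MeasureTheory Pool.Agent.LOF

namespace Pool.Agent.IRO

/-! ### subgroups and germs -/

/-- the elements of `F` that are the identity outside `(a,b)` -/
def FI (a b : ℝ) : Subgroup F where
  carrier := {g | ∀ x, x ∉ Set.Ioo a b → g.1 x = x}
  one_mem' := fun _ _ => rfl
  mul_mem' := by
    intro g h hg hh x hx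
    show g.1 (h.1 x) = x
    rw [hh x hx, hg x hx]
  inv_mem' := by
    intro g hg x hx
    show g.1.symm x = x
    rw [OrderIso.symm_apply_eq]
    exact (hg x hx).symm

lemma mem_FI {a b : ℝ} {g : F} : g ∈ FI a b ↔ ∀ x, x ∉ Set.Ioo a b → g.1 x = x := Iff.rfl

lemma FI_mono {a b a' b' : ℝ} (h1 : a' ≤ a) (h2 : b ≤ b') : FI a b ≤ FI a' b' := by
  intro g hg x hx
  refine hg x fun h => hx ⟨lt_of_le_of_lt h1 h.1, lt_of_lt_of_le h.2 h2⟩

lemma FI_top : FI 0 1 = ⊤ := by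
  rw [eq_top_iff]
  intro g _ x hx
  exact F.out g.2 hx

lemma FI_conj {a b : ℝ} {u : F} (hu : u ∈ FI a b) (g : F) :
    g * u * g⁻¹ ∈ FI (g.1 a) (g.1 b) := by
  intro x hx
  show g.1 (u.1 (g.1.symm x)) = x
  rw [hu (g.1.symm x), OrderIso.apply_symm_apply]
  intro h
  apply hx
  constructor
  · have := g.1.strictMono h.1
    rwa [OrderIso.apply_symm_apply] at this
  · have := g.1.strictMono h.2
    rwa [OrderIso.apply_symm_apply] at this

/-- the germ of `g` on the left of `b` is `z ↦ b + 2 ^ k * (z - b)` -/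
def gL (g : ℝ ≃o ℝ) (b : ℝ) (k : ℤ) : Prop :=
  ∃ e < b, ∀ z, e < z → z ≤ b → g z = b + 2 ^ k * (z - b)

/-- the germ of `g` on the right of `a` is `z ↦ a + 2 ^ k * (z - a)` -/
def gR (g : ℝ ≃o ℝ) (a : ℝ) (k : ℤ) : Prop :=
  ∃ e > a, ∀ z, a ≤ z → z < e → g z = a + 2 ^ k * (z - a)

/-- dyadic interval inside `[0,1]` -/
def Dy (a b : ℝ) : Prop := IsDyadic a ∧ IsDyadic b ∧ 0 ≤ a ∧ a < b ∧ b ≤ 1

/-- dyadic interval inside `(0,1)` -/
def Dyi (a b : ℝ) : Prop := IsDyadic a ∧ IsDyadic b ∧ 0 < a ∧ a < b ∧ b < 1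

lemma Dyi.dy {a b : ℝ} (h : Dyi a b) : Dy a b := ⟨h.1, h.2.1, h.2.2.1.le, h.2.2.2.1, h.2.2.2.2.le⟩

/-! ### the types of an interval -/

/-- some element of `F_[a,b]` that is trivial near `b` is cofinal in `F_[a,b]` -/
def Aty (P : F → Prop) (a b : ℝ) : Prop := ∃ g, (∃ b' < b, g ∈ FI a b') ∧ Cof P (FI a b) g

/-- some element of `F_[a,b]` that is trivial near `a` is cofinal in `F_[a,b]` -/
def Bty (P : F → Prop) (a b : ℝ) : Prop := ∃ g, (∃ a' > a, g ∈ FI a' b) ∧ Cof P (FI a b) g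

/-- the order is Conradian, the interior intervals have no `A`, and either no interval `[0,b]`
has `A` or none has `B` -/
def RT (r : LO F) : Prop :=
  Conr (Pr r) ∧ (∀ a b, Dyi a b → ¬ Aty (Pr r) a b) ∧
    ((∀ b, IsDyadic b → 0 < b → b < 1 → ¬ Aty (Pr r) 0 b) ∨
      (∀ b, IsDyadic b → 0 < b → b < 1 → ¬ Bty (Pr r) 0 b))

/-! ### the action on `D` and on the signs -/

/-- the action of `F` on the dyadics of `(0,1)` -/
def actD (g : F) (y : D) : D := ⟨g.1 y.1, F.dyadic g.2 y.2.1, by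
    have h0 : g.1 0 = 0 := F.out g.2 (by simp)
    have h1 : g.1 1 = 1 := F.out g.2 (by simp)
    constructor
    · have := g.1.strictMono y.2.2.1
      rwa [h0] at this
    · have := g.1.strictMono y.2.2.2
      rwa [h1] at this⟩

/-- the action of `F` on the signs -/
def actS (g : F) (ε : D → Bool) : D → Bool := fun y => ε (actD g⁻¹ y)

/-! ### generators -/

/-- the copy of `X0` on `[1 - 2 ^ (-i), 1]` -/
noncomputable def xx (i : ℕ) : ℝ ≃o ℝ := (Aff i (1 - 1 / 2 ^ i))⁻¹ * (X0 * Aff i (1 - 1 / 2 ^ i))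

/-- the `i`-th division point of the comb with `N` intervals
`[0,1/2], [1/2,3/4], ..., [1 - 2 ^ (-(N-1)), 1]` -/
noncomputable def cb (N i : ℕ) : ℝ := if i < N then 1 - 1 / 2 ^ i else 1

/-- `g` maps `[x,y]` affinely onto a standard dyadic interval -/
def GoodOn (g : ℝ ≃o ℝ) (x y : ℝ) : Prop :=
  (∃ (j : ℤ) (c : ℝ), ∀ z ∈ Set.Icc x y, g z = (2 : ℝ) ^ j * z + c) ∧
    ∃ m k : ℕ, g x = (k : ℝ) / 2 ^ m ∧ g y = ((k : ℝ) + 1) / 2 ^ m

/-! ### trivial facts on cones and cofinal elements -/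

section
variable {G : Type} [Group G] {P : G → Prop}

lemma Cone.ne (hP : Cone P) : ¬ P 1 := fun h => hP.anti 1 h (by rwa [inv_one])

lemma Cone.pow (hP : Cone P) {g : G} (hg : P g) {n : ℕ} (hn : 0 < n) : P (g ^ n) := by
  induction n with
  | zero => exact absurd hn (lt_irrefl 0)
  | succ n ih =>
    rcases Nat.eq_zero_or_pos n with h | h
    · subst h; simpa using hg
    · rw [pow_succ]; exact hP.mul _ _ (ih h) hg

lemma Cone.tri' (hP : Cone P) (g : G) : P g ∨ g = 1 ∨ P g⁻¹ := by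
  by_cases h : g = 1
  · exact Or.inr (Or.inl h)
  · rcases hP.tri g h with h | h
    · exact Or.inl h
    · exact Or.inr (Or.inr h)

lemma Cof.inv {H : Subgroup G} {g : G} (h : Cof P H g) : Cof P H g⁻¹ := by
  refine ⟨H.inv_mem h.1, fun k hk => ?_⟩
  obtain ⟨n, hn⟩ := h.2 k hk
  exact ⟨-n, by rwa [inv_zpow', neg_neg]⟩

lemma Cof.mono {H K : Subgroup G} {g : G} (h : Cof P K g) (hHK : H ≤ K) (hg : g ∈ H) :
    Cof P H g := ⟨hg, fun k hk => h.2 k (hHK hk)⟩

lemma Cof.of_zpow {H : Subgroup G} {g : G} {n : ℤ} (h : Cof P H (g ^ n)) (hg : g ∈ H) :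
    Cof P H g := by
  refine ⟨hg, fun k hk => ?_⟩
  obtain ⟨m, hm⟩ := h.2 k hk
  exact ⟨n * m, by rwa [zpow_mul]⟩

lemma Cof.ne_one (hP : Cone P) {H : Subgroup G} {g : G} (h : Cof P H g) : g ≠ 1 := by
  intro h1
  obtain ⟨n, hn⟩ := h.2 1 H.one_mem
  rw [h1, one_zpow, inv_one, one_mul] at hn
  exact hP.ne hn

end

end Pool.Agent.IRO
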