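import Pool.Agent.helper97.IRO.Fin4

set_option autoImplicit false

/-!
# The final statement with short names for the spaces and laws
-/

open MeasureTheory Pool.Agent.LOF

namespace Pool.Agent.IRO.Show

/-- the space of left orders of Thompson's group `F` -/
def LOF : Type := LO F

instance : MeasurableSpace LOF := inferInstanceAs (MeasurableSpace (LO F))

/-- the space of left orders of `F/F'` -/
def LOA : Type := LO (Abelianization F)

instance : MeasurableSpace LOA := inferInstanceAs (MeasurableSpace (LO (Abelianization F)))

/-- the conjugation action -/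
def cj (g : F) (r : LOF) : LOF := conj g r

/-- `g` is positive iff near the supremum of its support it moves points up or down as told by the
sign there (`s` at the point `1`, `ε` at the dyadics of `(0,1)`) -/
def PosS (s : Bool) (ε : D → Bool) (g : F) : Prop := Pos (ext s ε) g.1

/-- `g` is positive iff its class in `F/F'` is positive for `o`, or `g ∈ F'` and `g` is positive
for the signs `ε` -/
def PosO (o : LOA) (ε : D → Bool) (g : F) : Prop :=
  o.1 (1, Abelianization.of g) = true ∨ (Abelianization.of g = 1 ∧ PosS true ε g)

lemma cone_PosS (s : Bool) (ε : D → Bool) : Cone (PosS s ε) := cone_PosQ (Sum.inl s) ε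

lemma cone_PosO (o : LOA) (ε : D → Bool) : Cone (PosO o ε) := cone_PosQ (Sum.inr o) ε

/-- the left order with the cone `PosS s ε` -/
noncomputable def OrdS (s : Bool) (ε : D → Bool) : LOF := ofCone (PosS s ε) (cone_PosS s ε)

/-- the left order with the cone `PosO o ε` -/
noncomputable def OrdO (o : LOA) (ε : D → Bool) : LOF := ofCone (PosO o ε) (cone_PosO o ε)

/-- the image of a left order under the reflection `x ↦ 1 - x` -/
def mirror (r : LOF) : LOF := pull r

/-- the random order `OrdS s ε` (`t` true) or its mirror image (`t` false), the signs `ε` being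
independent and `true` with probability `p` -/
noncomputable def lawS (t s : Bool) (p : unitInterval) : Measure LOF :=
  (bernP p).map fun ε => if t then OrdS s ε else mirror (OrdS s ε)

/-- the random order `OrdO o ε` (`t` true) or its mirror image (`t` false) -/
noncomputable def lawO (t : Bool) (o : LOA) (p : unitInterval) : Measure LOF :=
  (bernP p).map fun ε => if t then OrdO o ε else mirror (OrdO o ε)

/-- the parameters `(t, s or o, p)` -/
def Par : Type := Bool × (Bool ⊕ LOA) × unitInterval

instance : MeasurableSpace Par :=
  inferInstanceAs (MeasurableSpace (Bool × (Bool ⊕ LOA) × unitInterval))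

/-- the random order with parameter `z` -/
noncomputable def lawP (z : Par) : Measure LOF :=
  Sum.elim (fun s => lawS z.1 s z.2.2) (fun o => lawO z.1 o z.2.2) z.2.1

/-- `ν` is the mixture of the random orders `lawP z` with respect to the probability measure `m` -/
def Mixture (ν : Measure LOF) (m : Measure Par) : Prop :=
  IsProbabilityMeasure m ∧ ∀ A, MeasurableSet A → ν A = ∫⁻ z, lawP z A ∂m

/-- `ν` is invariant under conjugation -/
def Invariant (ν : Measure LOF) : Prop := ∀ g : F, ν.map (cj g) = ν

/-- the orders fixed by all conjugations -/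
def Fixed : Set LOF := {r | ∀ g : F, cj g r = r}

/-- the orbit relation of the conjugation action -/
def E : LOF → LOF → Prop := Elo F

lemma lawP_eq (z : Bool × Q × unitInterval) :
    (lawP z : Measure LOF) = (law z.1 z.2.1 z.2.2 : Measure (LO F)) := by
  obtain ⟨t, q, p⟩ := z
  rcases q with s | o
  · rfl
  · rfl

theorem final5 (ν : Measure LOF) [hν : IsProbabilityMeasure ν] :
    (Invariant ν ↔ ∃ m, Mixture ν m) ∧ (∀ m m', Mixture ν m → Mixture ν m' → m = m') ∧
    (Invariant ν → ∀ Y, MeasurableSet Y → ν (Y \ Fixed) ≠ 0 → HyperfiniteOn Y E → Amenable F) := by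
  have key : ∀ m : Measure (Bool × Q × unitInterval),
      Mixture ν m ↔ Mix (ν : Measure (LO F)) m := by
    intro m
    refine and_congr Iff.rfl (forall_congr' fun A => imp_congr Iff.rfl ?_)
    have : ∫⁻ z, lawP z A ∂m = ∫⁻ w, law w.1 w.2.1 w.2.2 A ∂m := by
      refine lintegral_congr fun z => ?_
      exact congrArg (fun μ : Measure (LO F) => μ A) (lawP_eq z)
    exact Eq.congr_right this
  obtain ⟨h1, h2, h3⟩ := @final4 ν hν
  refine ⟨⟨fun h => ?_, fun h => ?_⟩, fun m m' hm hm' => ?_, fun h Y hY hpos hyp => ?_⟩
  · obtain ⟨m, hm⟩ := h1.1 h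
    exact ⟨m, (key m).2 hm⟩
  · obtain ⟨m, hm⟩ := h
    exact h1.2 ⟨m, (key m).1 hm⟩
  · exact h2 m m' ((key m).1 hm) ((key m').1 hm')
  · exact h3 h Y hY hpos hyp

end Pool.Agent.IRO.Show
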