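import Pool.Agent.helper97.IRO.Geo

set_option autoImplicit false

/-!
# Invariant random left orders of `F`: statements of the rows

Notation in the sketches: `h < k` means `P (h⁻¹ * k)`; C = the non-cofinal elements of `H`.
Order facts: left multiplication preserves `<`; products of positive elements are positive.
Trivial facts (`Cone.ne`, `Cone.pow`, `Cone.tri'`, `Cof.inv`, `Cof.mono`, `Cof.of_zpow`,
`Cof.ne_one`, `FI_mono`, `FI_conj`, `Pr_iff`, `Pr_conj`, `Pr_pull`, `Pr_ofCone`, `Pr_inj`,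
`cone_LO`) are in Defs and Geo.
-/

open MeasureTheory Pool.Agent.LOF

namespace Pool.Agent.IRO

/-! ## Part A: Conradian cones in an abstract group -/

/-- CT1. Suppose not: then (equality would give `f * g = 1`) `f g ^ 2 < g`. Put `h = f g`, `P h`,
`h g < g`, i.e. `P (g⁻¹ h⁻¹ g)`, so `P (g⁻¹ h⁻ⁿ g)` for `n ≥ 1` and
`h⁻ⁿ g = g * (g⁻¹ h⁻ⁿ g)` is positive. But Conr for `(f, h)` gives `n` with
`P (h⁻¹ f hⁿ) = P (g⁻¹ hⁿ)` (as `h⁻¹ f = g⁻¹`). Contradiction (`n = 0`: `P g⁻¹`). -/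
def CT1_stmt : Prop := ∀ (G : Type) [Group G] (P : G → Prop), Cone P → Conr P →
  ∀ f g, P f → P g → P (g⁻¹ * f * g ^ 2)

/-- HU (hull). `K = {h : h < gⁿ and h⁻¹ < gⁿ for some n}` is a subgroup. If `h < gⁿ`, `k < gᵐ`,
`m ≥ 1` then `h k < h gᵐ`, and CT1 with `f := h⁻¹ gⁿ`, `g := gᵐ` gives
`P (g⁻ᵐ h⁻¹ gⁿ g²ᵐ)`, i.e. `h gᵐ < g ^ (n + 2 m)`. -/
def HU_stmt : Prop := ∀ (G : Type) [Group G] (P : G → Prop), Cone P → Conr P →
  ∀ g, P g → ∃ K : Subgroup G, g ∈ K ∧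
    ∀ h, h ∈ K ↔ (∃ n : ℕ, P (h⁻¹ * g ^ n)) ∧ ∃ n : ℕ, P (h * g ^ n)

/-- CT2. Induct on a finite generating set (or take the largest `|s|`): for finite `S ⊆ G` either
all `s ∈ S` are `1` or there is `g` with `P g`, `g ∈ closure S` and `S ⊆ K_g` (hull, HU).
`|s| ≤ g` implies `s ∈ K_g`. -/
def CT2_stmt : Prop := ∀ (G : Type) [Group G] (P : G → Prop), Cone P → Conr P →
  ∀ H : Subgroup G, H.FG → H ≠ ⊥ → ∃ g, P g ∧ Cof P H g

/-- AL. Put `h' = h⁻¹`, choose `k ≥ 1` with `h' < fᵏ`. If `P (h' f⁻²ᵏ)` then CT1 with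
`f := h' f⁻²ᵏ`, `g := fᵏ` gives `P (f⁻ᵏ h')`, contradiction. So `f²ᵏ h'⁻¹` is `1` (then take
`2 k + 1`) or positive. -/
def AL_stmt : Prop := ∀ (G : Type) [Group G] (P : G → Prop), Cone P → Conr P →
  ∀ (H : Subgroup G) (f h : G), Cof P H f → P f → h ∈ H → ∃ n : ℕ, P (f ^ n * h)

/-- CT3. `h⁻¹ f h ≠ 1`. If `P (h⁻¹ f⁻¹ h)` then `P (h⁻¹ f⁻ⁿ h)` for `n ≥ 1`. `h = 1`: clear.
`P h⁻¹`: by AL `P (fⁿ h)`, `n ≥ 1`, but `(fⁿ h)⁻¹ = (h⁻¹ f⁻ⁿ h) h⁻¹` is positive. `P h`: by AL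
`P (fⁿ h⁻¹)`, `n ≥ 1`, CT1 with `f := fⁿ h⁻¹`, `g := h` gives `P (h⁻¹ fⁿ h)`. -/
def CT3_stmt : Prop := ∀ (G : Type) [Group G] (P : G → Prop), Cone P → Conr P →
  ∀ (H : Subgroup G) (f h : G), Cof P H f → P f → h ∈ H → P (h⁻¹ * f * h)

/-- CT4. Wlog `P f` (Cof.inv). For `k ∈ H` choose `m` with `P (k⁻¹ h fᵐ)` and (AL) `n` with
`P (fⁿ h⁻¹)`; the product is `k⁻¹ (h f h⁻¹) ^ (m + n)`. -/
def CT4_stmt : Prop := ∀ (G : Type) [Group G] (P : G → Prop), Cone P → Conr P →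
  ∀ (H : Subgroup G) (f h : G), Cof P H f → h ∈ H → Cof P H (h * f * h⁻¹)

/-- CT5. Let `a` be the larger of `|g|`, `|h|`; both are in the hull `K_a` (HU), so `g h ∈ K_a`;
if `g h` is cofinal in `H` then so is `a`: `k < (g h)ⁿ < aᵐ`. -/
def CT5_stmt : Prop := ∀ (G : Type) [Group G] (P : G → Prop), Cone P → Conr P →
  ∀ (H : Subgroup G) (g h : G), g ∈ H → h ∈ H → ¬ Cof P H g → ¬ Cof P H h → ¬ Cof P H (g * h)

/-- CT6. If not, `u < c` (`c = u` is impossible), `u` is in the hull `K_c` (HU), so `uⁿ < cᵐ` and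
`c` is cofinal. -/
def CT6_stmt : Prop := ∀ (G : Type) [Group G] (P : G → Prop), Cone P → Conr P →
  ∀ (H : Subgroup G) (c u : G), c ∈ H → ¬ Cof P H c → Cof P H u → P u → P (c⁻¹ * u)

/-- CT7. If `P ((u c)⁻¹)`, put `d = c⁻¹ = (c⁻¹ u⁻¹) u`, `P d`, `P (d u⁻¹)`; CT1 with `f := d u⁻¹`,
`g := d` gives `P (u⁻¹ d²)`, i.e. `u < d²`; `u⁻¹ < 1 < d`; so `u ∈ K_d`, `d` cofinal,
contradiction. `c u`: if `P (u⁻¹ c⁻¹)` then `u < c⁻¹`, against CT6 for `c⁻¹`. -/
def CT7_stmt : Prop := ∀ (G : Type) [Group G] (P : G → Prop), Cone P → Conr P →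
  ∀ (H : Subgroup G) (c u : G), c ∈ H → ¬ Cof P H c → Cof P H u → P u → P (u * c) ∧ P (c * u)

/-- HOL (Hoelder). It is enough that positive `x, y` commute. If not, wlog `c = (y x)⁻¹ (x y)` is
positive. Case A: some `z > 1` has `z² ≤ c`: with `zᵐ ≤ x < zᵐ⁺¹`, `zⁿ ≤ y < zⁿ⁺¹` we get
`x y < zᵐ⁺ⁿ⁺²` and `x y = y x c ≥ zᵐ⁺ⁿ z²`. Case B: no such `z`. If `1 < w < c` then
`z = w⁻¹ c > 1`, `c < w²` gives `z < w`, `z² < w z = c`, contradiction; so `c` is the least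
positive element and every positive element is a power of `c`. -/
def HOL_stmt : Prop := ∀ (G : Type) [Group G] (P : G → Prop), Cone P →
  (∀ g h, P g → P (h * g * h⁻¹)) → (∀ g h, P g → ∃ n : ℕ, P (h⁻¹ * g ^ n)) →
  ∀ g h : G, g * h = h * g

/-- CT8. C (intersected with `H`) is a normal subgroup of `H` (CT4, CT5, Cof.inv); on the
quotient the images of the positive cofinal elements form a cone which is normal (CT3) and
archimedean; HOL. (If no element is cofinal there is nothing to prove.) -/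
def CT8_stmt : Prop := ∀ (G : Type) [Group G] (P : G → Prop), Cone P → Conr P →
  ∀ (H : Subgroup G) (c : G), c ∈ ⁅H, H⁆ → ¬ Cof P H c

/-- CT9. Wlog `P g` and `n > 0`; `k < gᵐ` implies `k < gᵐ'` for all `m' ≥ m`. -/
def CT9_stmt : Prop := ∀ (G : Type) [Group G] (P : G → Prop), Cone P →
  ∀ (H : Subgroup G) (g : G) (n : ℤ), Cof P H g → n ≠ 0 → Cof P H (g ^ n)

/-! ## Part B: Thompson's group -/

/-- G1. No breakpoint in `(e,b)` (resp. `(b,e)`) for some `e`; `PLWith`. Uniqueness clear. -/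
def G1_stmt : Prop := ∀ (g : F) (b : ℝ), g.1 b = b → (∃! k, gL g.1 b k) ∧ (∃! k, gR g.1 b k)

/-- G2. Composition and inverse of germs. -/
def G2_stmt : Prop := ∀ (g h : ℝ ≃o ℝ) (b : ℝ) (k l : ℤ),
  (gL g b k → gL h b l → gL (g * h) b (k + l)) ∧ (gL g b k → gL g⁻¹ b (-k)) ∧
  (gR g b k → gR h b l → gR (g * h) b (k + l)) ∧ (gR g b k → gR g⁻¹ b (-k))

/-- G3. -/
def G3_stmt : Prop := ∀ (a b : ℝ) (g : F), a < b → g ∈ FI a b →
  (gL g.1 b 0 → ∃ b', a < b' ∧ b' < b ∧ IsDyadic b' ∧ g ∈ FI a b') ∧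
  (gR g.1 a 0 → ∃ a', a < a' ∧ a' < b ∧ IsDyadic a' ∧ g ∈ FI a' b)

/-- G4. Copies of `X0` in small standard dyadic intervals ending (starting) at the point; for the
right germ use the mirror image or `X0⁻¹` (`X0 t = t / 2` near `0`). Compare
`Pool.Agent.LOF.exists_down`. -/
def G4_stmt : Prop := ∀ a b : ℝ, 0 ≤ a → a < b → b ≤ 1 →
  (IsDyadic b → ∃ a', IsDyadic a' ∧ a < a' ∧ a' < b ∧ ∃ u ∈ FI a' b, gL u.1 b 1) ∧
  (IsDyadic a → ∃ b', IsDyadic b' ∧ a < b' ∧ b' < b ∧ ∃ u ∈ FI a b', gR u.1 a 1)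

/-- G5a. `F` is transitive on `D`: induct on the level of `y`, with `X0` and `xx 1`: `X0` maps
`[3/4,1]` by `2 t - 1`, `X0⁻¹` maps `[0,1/4]` by `2 t` and `[1/4,1/2]` by `t + 1/4`,
`(xx 1)⁻¹` maps `[1/2,5/8]` by `2 t - 1/2` and `[5/8,3/4]` by `t + 1/8` into `[3/4,7/8]`. -/
def G5a_stmt : Prop := ∀ y : ℝ, IsDyadic y → 0 < y → y < 1 → ∃ g : F, g.1 (1 / 2) = y

/-- EMB. Conjugation by `Aff m (j / 2 ^ m)`. -/
def EMB_stmt : Prop := ∀ m j : ℕ, j < 2 ^ m → ∃ φ : F →* F,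
  φ.range = FI ((j : ℝ) / 2 ^ m) (((j : ℝ) + 1) / 2 ^ m) ∧
  (∀ g t, (φ g).1 t = (g.1 (2 ^ m * (t - (j : ℝ) / 2 ^ m))) / 2 ^ m + (j : ℝ) / 2 ^ m) ∧
  (∀ g k, gL g.1 1 k ↔ gL (φ g).1 (((j : ℝ) + 1) / 2 ^ m) k) ∧
  (∀ g k, gR g.1 0 k ↔ gR (φ g).1 ((j : ℝ) / 2 ^ m) k)

/-- G5. Transitivity on increasing tuples. Show that every increasing `d` is an image of the
standard tuple `i ↦ 2 ^ (i - n)`: by G5a move `1/2` to the last entry, pull back the rest to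
`(0,1/2)`, double it, use induction and EMB with `m = 1, j = 0`. -/
def G5_stmt : Prop := ∀ (n : ℕ) (d d' : Fin n → ℝ),
  (∀ i, IsDyadic (d i) ∧ 0 < d i ∧ d i < 1) → (∀ i, IsDyadic (d' i) ∧ 0 < d' i ∧ d' i < 1) →
  StrictMono d → StrictMono d' → ∃ g : F, ∀ i, g.1 (d i) = d' i

/-- G7. Germs of conjugates (`g` is affine near `b`, on each side). -/
def G7_stmt : Prop := ∀ (g u : F) (b : ℝ) (k : ℤ),
  (gL u.1 b k → gL (g * u * g⁻¹).1 (g.1 b) k) ∧ (gR u.1 b k → gR (g * u * g⁻¹).1 (g.1 b) k)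

/-- GE1. `xx 0 = X0` and `xx (i+1) = X0⁻¹ * xx i * X0` for `i ≥ 1`. -/
def GE1_stmt : Prop := ∀ i : ℕ, xx i ∈ Subgroup.closure {X0, xx 1}

/-- GE2 (siblings). Take an interval of the largest level `m` (`m ≥ 1` as `N ≥ 2`), say
`[k/2^m, (k+1)/2^m]`. If `k` is even then the next interval starts at an odd multiple of
`1/2^m`, so it has level exactly `m`; if `k` is odd, the previous one. -/
def GE2_stmt : Prop := ∀ (N : ℕ) (p : ℕ → ℝ), 2 ≤ N → p 0 = 0 → p N = 1 →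
  (∀ i < N, ∃ m k : ℕ, p i = (k : ℝ) / 2 ^ m ∧ p (i + 1) = ((k : ℝ) + 1) / 2 ^ m) →
  ∃ i m k : ℕ, i + 2 ≤ N ∧ p i = (2 * (k : ℝ)) / 2 ^ m ∧ p (i + 1) = (2 * (k : ℝ) + 1) / 2 ^ m ∧
    p (i + 2) = (2 * (k : ℝ) + 2) / 2 ^ m

/-- GE3. Induction on `N`: `N = 1`: `g = 1`. `N ≥ 2`: GE2 for `p i = g (cb N i)`; let `t = xx i` if
`i + 2 < N` and `t = 1` if `i + 2 = N`: `t` maps the `N`-comb affinely onto the `(N-1)`-comb with
the `i`-th interval halved. `g * t⁻¹` is good for `N - 1`. GE1. -/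
def GE3_stmt : Prop := ∀ (N : ℕ) (g : ℝ ≃o ℝ), 1 ≤ N → g ∈ F →
  (∀ i < N, GoodOn g (cb N i) (cb N (i + 1))) → g ∈ Subgroup.closure {X0, xx 1}

/-- GE4. The piecewise linear map which sends the comb with `2^m` intervals to the uniform
partition. (For instance: among the `s ∈ F` with `GoodOn s (cb N i) (cb N (i+1))` for all
`i < N` and all levels `≤ m` take one with `N` maximal (`N ≤ 2^m`); if an interval has level
`< m`, `s * xx i` splits it. Or interpolate.) -/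
def GE4_stmt : Prop := ∀ m : ℕ, ∃ s ∈ F, (∀ i ≤ 2 ^ m, s (cb (2 ^ m) i) = (i : ℝ) / 2 ^ m) ∧
  ∀ i < 2 ^ m, ∃ (j : ℤ) (c : ℝ), ∀ z ∈ Set.Icc (cb (2 ^ m) i) (cb (2 ^ m) (i + 1)),
    s z = (2 : ℝ) ^ j * z + c

/-- GE5. All breakpoints of `g` have level `≤ m₀`; on each of the `2^m₀` intervals `g` is
`2^j z + c` with `c` dyadic; take `m` large. -/
def GE5_stmt : Prop := ∀ g ∈ F, ∃ m : ℕ, ∀ k : ℕ, k < 2 ^ m →
  GoodOn g ((k : ℝ) / 2 ^ m) (((k : ℝ) + 1) / 2 ^ m)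

/-- GE6. With `s` from GE4 and `m` from GE5, `g * s` and `s` satisfy GE3 with `N = 2^m`. -/
def GE6_stmt : Prop := ∀ g ∈ F, g ∈ Subgroup.closure {X0, xx 1}

/-- GE7. `X0, xx 1 ∈ F`, so `F` has two generators `x, y` (as elements of the group `F`) with
exponents `gR = -1, gL = 1` and `gR = 0, gL = 1`. By closure induction every `g` is
`x ^ m * y ^ n * c`, `c` in the commutator subgroup. -/
def GE7_stmt : Prop := (⊤ : Subgroup F).FG ∧
  ∀ g : F, gR g.1 0 0 → gL g.1 1 0 → g ∈ commutator F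

/-- G8. By G5 and FI_conj reduce to `[1/4,1/2]`, `[0,1/2]`, `[1/2,1]`, `[0,1]`; EMB; GE7. -/
def G8_stmt : Prop := ∀ a b : ℝ, Dy a b → (FI a b).FG

/-- G9. Same reduction (G7 for the germs). -/
def G9_stmt : Prop := ∀ (a b : ℝ) (g : F), Dy a b → g ∈ FI a b → gR g.1 a 0 → gL g.1 b 0 →
  g ∈ ⁅FI a b, FI a b⁆

/-! ## Part C: the types of the intervals (P is always a Conradian cone of F) -/

/-- T2. CT8 and G9. -/
def T2_stmt : Prop := ∀ P : F → Prop, Cone P → Conr P → ∀ (a b : ℝ) (g : F), Dy a b →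
  g ∈ FI a b → gR g.1 a 0 → gL g.1 b 0 → ¬ Cof P (FI a b) g

/-- T1. Take `f` cofinal (CT2, G8; the group is not trivial by G4), exponents `k` at `a`, `l` at
`b` (G1). `k = 0` or `l = 0`: G3. Otherwise with `u, v` from G4 (`u ∈ F_[a,b']`, `gR u a 1`;
`v ∈ F_[a',b]`, `gL v b 1`) the element `f⁻¹ u^k v^l` has exponents `0`, so it is not cofinal
(T2), hence `u^k v^l` is cofinal (CT5, Cof.inv), hence `u^k` or `v^l`, hence `u` or `v`. -/
def T1_stmt : Prop := ∀ P : F → Prop, Cone P → Conr P → ∀ a b : ℝ, Dy a b →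
  Aty P a b ∨ Bty P a b

/-- T3. `w` cofinal in `F_[a,b']`, trivial near `b'`, exponent `k ≠ 0` at `a` (T2). `u ∈ F_[a,c]`,
`c < b`, `gR u a 1` (G4); `w⁻¹ u^k` is not cofinal (T2), so `u` is cofinal in `F_[a,b']`
(CT5), hence in `F_[a,b]`: `Aty P a b`. If `v ∈ F_[a'',b]`, `a < a''`, is cofinal in `F_[a,b]`:
`v` is not cofinal in `F_[a,b']` (T2), nor are its powers, so `v^n < |u|` for all `n` (CT6), but
`|u| ∈ F_[a,b]`. Contradiction. -/
def T3_stmt : Prop := ∀ P : F → Prop, Cone P → Conr P → ∀ a b b' : ℝ, Dy a b → Dy a b' →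
  b < b' → Aty P a b' → Aty P a b ∧ ¬ Bty P a b

/-- T4. The mirror image of T3 (same proof). -/
def T4_stmt : Prop := ∀ P : F → Prop, Cone P → Conr P → ∀ a' a b : ℝ, Dy a b → Dy a' b →
  a' < a → Bty P a' b → Bty P a b ∧ ¬ Aty P a b

/-- T5. Elements of `F_[a,b]` with exponent `0` at `b` are not cofinal (G3, no `A`). Take `f`
cofinal with exponent `m` at `b` (`m ≠ 0`): `f^k v^(-m)` has exponent `0`; if `v` is not
cofinal then `f^k` is not, contradiction to CT9. Second part: the same with the left end. -/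
def T5_stmt : Prop := ∀ P : F → Prop, Cone P → Conr P → ∀ (a b : ℝ) (v : F) (k : ℤ), Dy a b →
  v ∈ FI a b → k ≠ 0 →
  (¬ Aty P a b → gL v.1 b k → Cof P (FI a b) v) ∧ (¬ Bty P a b → gR v.1 a k → Cof P (FI a b) v)

/-- T5s. `v^l w^(-k)` has exponent `0` at `b`, so it is not cofinal; `v, w` are cofinal (T5); if
`P v` then `P (v^l)` and `w^k = (v^l w^(-k))⁻¹ v^l` is positive by CT7, so `P w`. -/
def T5s_stmt : Prop := ∀ P : F → Prop, Cone P → Conr P → ∀ (a b : ℝ) (v w : F) (k l : ℤ),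
  Dy a b → v ∈ FI a b → w ∈ FI a b → 0 < k → 0 < l → ¬ Aty P a b → gL v.1 b k → gL w.1 b l →
  (P v ↔ P w)

/-- T6. `v ∈ F_[a,b]` with `gL v b 1` is cofinal in `F_[a,b]` (T5). Let `H` be generated by `g` and
`F_[a,b]` (finitely generated, G8). Wlog `g b > b` (else `g⁻¹`, same `H`). `w = g v g⁻¹` has
exponent `1` at `g b` (G7), `v, w ∈ F_[a',g b]`, `a' = min a (g a)`; there `w` is cofinal (T5)
and `v` is not (no `A`), so `v^n < |w|` for all `n` (CT6); so `v` is not cofinal in `H`. Then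
no `h ∈ F_[a,b]` is cofinal in `H` (`h` is in the hull of `|v|`: CT6/HU), hence `g` is cofinal
in `H` (otherwise all of `H` is non-cofinal by CT5, against CT2). CT7. -/
def T6_stmt : Prop := ∀ P : F → Prop, Cone P → Conr P → (∀ a b, Dyi a b → ¬ Aty P a b) →
  ∀ (a b : ℝ) (g h : F), Dyi a b → g.1 b ≠ b → h ∈ FI a b → (P (g * h) ↔ P g)

/-- T7a (kind with a sign). First `¬ Aty P a b` for all dyadic `0 ≤ a < b ≤ 1` (T3: `A` at `[a,1]`
implies `A` at `[a,b]`). The sign of `g` with top `y` (exists_top) is that of any element of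
`F_[0,y]` with an exponent of the same sign at `y` (T5s with `a = 0`; for negative exponents
use inverses). Put `ε y = P u_y` with `u_y ∈ F_[0,y]` of exponent `-1` at `y` (moving up). -/
def T7a_stmt : Prop := ∀ P : F → Prop, Cone P → Conr P → (∀ a b, Dyi a b → ¬ Aty P a b) →
  (∀ b, IsDyadic b → 0 < b → b < 1 → ¬ Aty P 0 b) →
  ∃ ε : DD → Bool, ∀ g : F, P g ↔ Pos ε g.1

/-- T7b. `g ∉ F'` and `h ∈ F'` implies `P (g h) ↔ P g`: by GE7 `g` has a nonzero exponent at `0` or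
`1`; exponent `≠ 0` at `1`: `g` moves some dyadic `b` close to `1`, T6. Exponent `0` at `1`, `≠ 0`
at `0`: `g, h ∈ F_[0,b]` for some dyadic `b < 1`, `g` is cofinal there by T5 (no `B`), `h` is not
(T2), CT7. On `F'` (compact supports): T5s as in T7a. (`h ∈ commutator F` has exponents `0`.) -/
def T7b_stmt : Prop := ∀ P : F → Prop, Cone P → Conr P → (∀ a b, Dyi a b → ¬ Aty P a b) →
  (∀ b, IsDyadic b → 0 < b → b < 1 → ¬ Bty P 0 b) →
  (∀ g h : F, g ∉ commutator F → h ∈ commutator F → (P (g * h) ↔ P g)) ∧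
  ∃ ε : DD → Bool, ∀ g ∈ commutator F, P g ↔ Pos ε g.1

/-- T8. From T7a: `q = Sum.inl (ε 1)`. From T7b: `q = Sum.inr o` with `o` the order of the
abelianization with cone `{of g | g ∉ F', P g}` (ofCone, Pr_inj). -/
def T8_stmt : Prop := ∀ r : LO F, RT r → ∃ (q : Q) (ε : D → Bool), r = Ord q ε

/-! ## Part D: the mirror image -/

/-- MI1. `Pr_pull`; `mirF` maps `FI a b` onto `FI (1-b) (1-a)`. -/
def MI1_stmt : Prop := ∀ r : LO F, (Conr (Pr (pull r)) ↔ Conr (Pr r)) ∧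
  ∀ a b : ℝ, (Aty (Pr (pull r)) a b ↔ Bty (Pr r) (1 - b) (1 - a)) ∧
    (Bty (Pr (pull r)) a b ↔ Aty (Pr r) (1 - b) (1 - a))

/-! ## Part E: almost sure types -/

/-- the measure is invariant under conjugation -/
def Inv (ν : Measure (LO F)) : Prop := ∀ g : F, ν.map (conj g) = ν

/-- ME1. For fixed `f, g`: `conj g` is measure preserving, hence conservative (finite measure), so
a.e. `r` with `Pr r f` has `Pr (conj g^n r) f` for infinitely many `n`, i.e. `Pr r (g⁻ⁿ f gⁿ)`;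
if `Pr r g` then `g⁻¹ f gⁿ = g ^ (n-1) * (g⁻ⁿ f gⁿ)` is positive for such `n ≥ 1`. -/
def ME1_stmt : Prop := ∀ (ν : Measure (LO F)) [IsFiniteMeasure ν], Inv ν →
  ∀ᵐ r ∂ν, Conr (Pr r)

/-- ME2. `F` is countable; `Pr (conj g r) h ↔ Pr r (g⁻¹ h g)` (Pr_conj), FI_conj. -/
def ME2_stmt : Prop := (∀ a b : ℝ, MeasurableSet {r : LO F | Aty (Pr r) a b}) ∧
  (∀ a b : ℝ, MeasurableSet {r : LO F | Bty (Pr r) a b}) ∧
  MeasurableSet {r : LO F | Conr (Pr r)} ∧
  (∀ (g : F) (r : LO F) (a b : ℝ), (Aty (Pr (conj g r)) (g.1 a) (g.1 b) ↔ Aty (Pr r) a b) ∧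
    (Bty (Pr (conj g r)) (g.1 a) (g.1 b) ↔ Bty (Pr r) a b)) ∧
  (∀ (g : F) (r : LO F), Conr (Pr (conj g r)) ↔ Conr (Pr r))

/-- ME3 (interior intervals). `ν A_{ab}` does not depend on the interior dyadic interval (G5,
ME2). `b < b'`: `A_{ab'} ⊆ A_{ab} \ B_{ab}` a.e. (T3, ME1), so `ν (A_{ab} ∩ B_{ab}) = 0` and
`A_{ab} = A_{ab'}` a.e.; with T1: `B = Aᶜ` a.e. By T4 `B_{ab} = B_{a'b}` a.e. So all `A_{ab}` are
a.e. equal (compare `(a,b), (a,b''), (c,b''), (c,d)`). Countably many intervals. -/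
def ME3_stmt : Prop := ∀ (ν : Measure (LO F)) [IsFiniteMeasure ν], Inv ν →
  ∀ᵐ r ∂ν, (∀ a b, Dyi a b → ¬ Aty (Pr r) a b) ∨ (∀ a b, Dyi a b → ¬ Bty (Pr r) a b)

/-- ME4 (intervals with an end at `0` or `1`). Same with `[0,b]` and T3, `[a,1]` and T4. -/
def ME4_stmt : Prop := ∀ (ν : Measure (LO F)) [IsFiniteMeasure ν], Inv ν →
  (∀ᵐ r ∂ν, (∀ b, IsDyadic b → 0 < b → b < 1 → ¬ Aty (Pr r) 0 b) ∨
      (∀ b, IsDyadic b → 0 < b → b < 1 → ¬ Bty (Pr r) 0 b)) ∧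
  (∀ᵐ r ∂ν, (∀ a, IsDyadic a → 0 < a → a < 1 → ¬ Aty (Pr r) a 1) ∨
      (∀ a, IsDyadic a → 0 < a → a < 1 → ¬ Bty (Pr r) a 1))

/-- ME5. ME1, ME3, ME4, MI1. -/
def ME5_stmt : Prop := ∀ (ν : Measure (LO F)) [IsFiniteMeasure ν], Inv ν →
  ∀ᵐ r ∂ν, RT r ∨ RT (pull r)

/-! ## Part F: de Finetti for invariant colourings of the dyadics -/

/-- DF0. π-system of cylinders (`Measurable.measure_of_isPiSystem_of_isProbabilityMeasure` or
similar); on cylinders the value is a product of `ofReal p`, `ofReal (1-p)`. -/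
def DF0_stmt : Prop := Measurable (fun p : unitInterval => bernP p)

/-- a measure on `Ω × 2^D` invariant under the action of `F` on the second factor -/
def InvS (Ω : Type) [MeasurableSpace Ω] (μ : Measure (Ω × (D → Bool))) : Prop :=
  ∀ g : F, μ.map (fun z => (z.1, actS g z.2)) = μ

/-- DF1 (spreadable). From G5. -/
def DF1_stmt : Prop := ∀ (Ω : Type) [MeasurableSpace Ω] (μ : Measure (Ω × (D → Bool)))
  [IsFiniteMeasure μ], InvS Ω μ → ∀ (n : ℕ) (d d' : Fin n → D) (s : Fin n → Bool) (B : Set Ω),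
  MeasurableSet B → (StrictMono fun i => (d i).1) → (StrictMono fun i => (d' i).1) →
  μ {z | z.1 ∈ B ∧ ∀ i, z.2 (d i) = s i} = μ {z | z.1 ∈ B ∧ ∀ i, z.2 (d' i) = s i}

/-- the indicator of `true` -/
def ind (b : Bool) : ℝ := if b then 1 else 0

/-- DF2. For every strictly increasing sequence `e` in `D` the averages
`A_N = (1/N) ∑_{i<N} ind (ε (e i))` are Cauchy in `L²(μ)`: by DF1 `∫ ind (ε d) = p₁`,
`∫ ind (ε d) ind (ε d') = c` (`d < d'`), so `∫ (A_N - A_M)² = (p₁ - c) (1/N - 1/M)` for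
`N ≤ M`. Take the `L²` limit, a measurable representative, clip it to `[0,1]`. (It may be taken
as a function on `Ω × 2^D`.) -/
def DF2_stmt : Prop := ∀ (Ω : Type) [MeasurableSpace Ω] (μ : Measure (Ω × (D → Bool)))
  [IsFiniteMeasure μ], InvS Ω μ → ∀ e : ℕ → D, (StrictMono fun i => (e i).1) →
  ∃ α : Ω × (D → Bool) → unitInterval, Measurable α ∧
    Filter.Tendsto (fun N : ℕ => ∫ z, ((∑ i ∈ Finset.range N, ind (z.2 (e i))) / N - (α z).1) ^ 2 ∂μ)
      Filter.atTop (nhds 0)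

/-- DF3. By DF1 the left side equals `μ {z | z.1 ∈ B ∧ ∀ i, z.2 (e (i N + j i)) = s i}` for all
choices `j i < N`; average over the choices: it is the integral over `B` of the product of the
block averages `A^i` (or `1 - A^i`), `i < n`. `∫ (A^i - A_N)² = 2 (p₁ - c) / N` for `i ≥ 1`, so
`A^i → α` in `L²`; `|∏ x_i - ∏ y_i| ≤ ∑ |x_i - y_i|` in `[0,1]`. -/
def DF3_stmt : Prop := ∀ (Ω : Type) [MeasurableSpace Ω] (μ : Measure (Ω × (D → Bool)))
  [IsFiniteMeasure μ], InvS Ω μ → ∃ α : Ω × (D → Bool) → unitInterval, Measurable α ∧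
  ∀ (n : ℕ) (d : Fin n → D) (s : Fin n → Bool) (B : Set Ω), MeasurableSet B →
  (StrictMono fun i => (d i).1) →
  (μ {z | z.1 ∈ B ∧ ∀ i, z.2 (d i) = s i}).toReal =
    ∫ z in {z | z.1 ∈ B}, ∏ i, (if s i then (α z).1 else 1 - (α z).1) ∂μ

/-- DF4. `m` = image of `μ` under `z ↦ (z.1, α z)`. Both sides are finite measures in `A` (DF0)
that agree on the π-system of the sets `{z | z.1 ∈ B ∧ ∀ i, z.2 (d i) = s i}`. -/
def DF4_stmt : Prop := ∀ (Ω : Type) [MeasurableSpace Ω] (μ : Measure (Ω × (D → Bool)))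
  [IsFiniteMeasure μ], InvS Ω μ → ∃ m : Measure (Ω × unitInterval), IsFiniteMeasure m ∧
  ∀ A : Set (Ω × (D → Bool)), MeasurableSet A →
    μ A = ∫⁻ w, bernP w.2 {ε | (w.1, ε) ∈ A} ∂m

/-! ## Part G: the end -/

/-- FN1. `Ord` has a measurable left inverse. For `r`: `ε_r d = Pr r (u_d)` with a fixed `u_d ∈ F'`
with top `d` moving up there (`exists_down` and inverses). If `F'` is convex for `r` (for `g ∉ F'`,
`h ∈ F'`: `Pr r (g h) ↔ Pr r g`) then `q = Sum.inr o`, `o` = the quotient order (`Quotient.out`),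
else `q = Sum.inl (Pr r u_1)`. For `r = Ord (Sum.inl s) ε` `F'` is not convex: take `g` with
exponent `≠ 0` at `0` and top `1/2` and `h ∈ F'` with top `3/4` of the opposite sign. -/
def FN1_stmt : Prop := ∃ Ψ : LO F → Q × (D → Bool), Measurable Ψ ∧
  ∀ (q : Q) (ε : D → Bool), Ψ (Ord q ε) = (q, ε)

/-- FN2. Compare `Phi_smul`, `pos_smul`; `F` acts trivially on the abelianization. -/
def FN2_stmt : Prop := ∀ (g : F) (q : Q) (ε : D → Bool), conj g (Ord q ε) = Ord q (actS g ε)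

/-- FN3. -/
def FN3_stmt : Prop := Measurable fun z : Q × (D → Bool) => Ord z.1 z.2

/-- FN4. Apply DF4 with `Ω = Q` to `ν.map Ψ` (FN1; invariant by FN2); `ν` is the image of it under
`Ord` (FN3). -/
def FN4_stmt : Prop := ∀ (ν : Measure (LO F)) [IsFiniteMeasure ν], Inv ν →
  (∀ᵐ r ∂ν, ∃ (q : Q) (ε : D → Bool), r = Ord q ε) →
  ∃ m : Measure (Q × unitInterval), IsFiniteMeasure m ∧
    ∀ A, MeasurableSet A → ν A = ∫⁻ w, law true w.1 w.2 A ∂m

/-- FN5. Split `ν` along the invariant measurable set `{r | RT r}` (ME2; countably many dyadics),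
use T8 and FN4 for the first part and for the image of the second under `pull`
(`pull (conj g r) = conj (mirF g) (pull r)`, `pull (pull r) = r`); `m` = sum of the images under
`w ↦ (true, w)` and `w ↦ (false, w)` (measurable embeddings). -/
def FN5_stmt : Prop := ∀ (ν : Measure (LO F)) [IsProbabilityMeasure ν], Inv ν →
  ∃ m : Measure (Bool × Q × unitInterval), IsProbabilityMeasure m ∧
    ∀ A, MeasurableSet A → ν A = ∫⁻ w, law w.1 w.2.1 w.2.2 A ∂m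

/-- FN6. FN2, FN3, invariance of `bernP p` under `actS g` (compare `bern_inv`), and
`pull (conj g r) = conj (mirF g) (pull r)`. -/
def FN6_stmt : Prop := ∀ (t : Bool) (q : Q) (p : unitInterval), Inv (law t q p)

/-- FR. `0 < p < 1`: choose `n` disjoint pairs `d_i, g d_i`; the probability that the signs agree
in all pairs is `(p² + (1-p)²)ⁿ`. -/
def FR_stmt : Prop := ∀ (p : unitInterval) (g : F), 0 < p.1 → p.1 < 1 → g ≠ 1 →
  bernP p {ε | actS g ε = ε} = 0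

/-- FN7. `p ∈ {0,1}`: the law is a point mass at a fixed point (FN2). Otherwise FR, FN2, FN1
(`Ord q` is injective). -/
def FN7_stmt : Prop := ∀ (t : Bool) (q : Q) (p : unitInterval) (g : F), g ≠ 1 →
  law t q p {r | conj g r = r ∧ ¬ ∀ h : F, conj h r = r} = 0

/-- FN8. If `ν` of the fixed points is `< 1`, normalise `ν` on the complement: an invariant
probability measure, essentially free by FN5 and FN7; `amenable_of_pullback` with `X = L = LO F`,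
`Φ = id` (`conj` is a left action), `HyperfiniteOn.sub`. -/
def FN8_stmt : Prop := ∀ (ν : Measure (LO F)) [IsProbabilityMeasure ν], Inv ν →
  ∀ Y : Set (LO F), MeasurableSet Y → ν Yᶜ = 0 → HyperfiniteOn Y (Elo F) →
    ν {r | ∀ g : F, conj g r = r} = 1 ∨ Amenable F

end Pool.Agent.IRO
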