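import Pool.Agent.helper97.IRO.Spec

set_option autoImplicit false

/-!
# Invariant random left orders of `F`: uniqueness of the mixing measure
-/

open MeasureTheory Pool.Agent.LOF

namespace Pool.Agent.IRO

/-- UN1. By G4 take `w ∈ F_[1/4,b']`, `b' < 1/2`, `gR w (1/4) 1` and `u ∈ F_[a',3/4]`, `1/2 < a'`,
`gL u (3/4) 1`. `w u` and `w⁻¹ u` are in `F'` (GE7) and have the top `3/4`, with the direction of
`u`, so they have the same sign in `Ord q ε`; their mirror images have the top `3/4` with opposite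
directions, so they have opposite signs in `pull (Ord q' ε')` (Pr_pull). -/
def UN1_stmt : Prop := ∀ (q q' : Q) (ε ε' : D → Bool), Ord q ε ≠ pull (Ord q' ε')

/-- UN2 (weak law of large numbers). `∫ ind (ε d) = p`, `∫ ind (ε d) ind (ε d') = p ^ 2` for
`d ≠ d'`; the integral is `p (1 - p) / N`. -/
def UN2_stmt : Prop := ∀ (e : ℕ → D), Function.Injective e → ∀ (p : unitInterval) (N : ℕ), 0 < N →
  ∫ ε, ((∑ i ∈ Finset.range N, ind (ε (e i))) / N - p.1) ^ 2 ∂(bernP p) ≤ 1 / N

/-- UN3. Fix an injective sequence `e` in `D`, `A_N ε` the averages, `α ε` = the limsup of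
`A_{4^k} ε` (clipped to `[0,1]`). By UN2 the sum over `k` of `∫ (A_{4^k} - p)²` is finite, so
`A_{4^k} → p` and `α = p` a.e. for `bernP p`. With `Ψ` from FN1: if `Ord (Ψ r).1 (Ψ r).2 = r` (a
measurable set by FN3) put `Θ r = (true, (Ψ r).1, α (Ψ r).2)`, otherwise use `pull r` in the same
way with `false`. UN1; `pull (pull r) = r`. -/
def UN3_stmt : Prop := ∃ Θ : LO F → Bool × Q × unitInterval, Measurable Θ ∧
  ∀ (t : Bool) (q : Q) (p : unitInterval), ∀ᵐ r ∂(law t q p), Θ r = (t, q, p)

/-- UN4. For measurable `B` take `A = Θ⁻¹ B`: `law w A` is the indicator of `B` at `w` (the laws are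
probability measures by FN3). -/
def UN4_stmt : Prop := ∀ (m m' : Measure (Bool × Q × unitInterval)), IsProbabilityMeasure m →
  IsProbabilityMeasure m' → (∀ A, MeasurableSet A →
    ∫⁻ w, law w.1 w.2.1 w.2.2 A ∂m = ∫⁻ w, law w.1 w.2.1 w.2.2 A ∂m') → m = m'

end Pool.Agent.IRO
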